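import Pool.Agent.MP_242484_co.on.Game

/-!
Additivity of the linear coin game. A state is a pair (`α`, `β`), `α` = needs on the left and
slacks on the right, `β` = slacks on the left and needs on the right. For fixed `β` the winning
`α` are closed under sums, and for fixed `α` the winning `β` are closed under sums.
-/

set_option autoImplicit false

namespace Pool.Agent.MP_242484_co.On

/-- effective slack of the inner set -/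
def eI (f sF sA : ℕ) : ℕ := min (min sF f) sA

/-- effective slack of the outer set -/
def eO (f c sF sA : ℕ) : ℕ := min sA (c + min sF f)

/-- nested pair: the needs add -/
def NL (f c sF sA f1 c1 F1 A1 f2 c2 F2 A2 : ℕ) : Prop :=
  (sA ≤ sF ∨ (eI f1 F1 A1 ≤ sF ∧ eI f2 F2 A2 ≤ sF ∧
    f + eI f1 F1 A1 + eI f2 F2 A2 ≤ sF + f1 + f2)) ∧
  eO f1 c1 F1 A1 ≤ sA ∧ eO f2 c2 F2 A2 ≤ sA ∧
    f + c + eO f1 c1 F1 A1 + eO f2 c2 F2 A2 ≤ sA + (f1 + c1) + (f2 + c2)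

/-- nested pair: the slacks add -/
def SL (f c sF sA f1 c1 F1 A1 f2 c2 F2 A2 : ℕ) : Prop :=
  (f ≤ sF ∨ (eI f1 F1 A1 + eI f2 F2 A2 ≤ sF ∧ f + eI f1 F1 A1 ≤ sF + f1 ∧
    f + eI f2 F2 A2 ≤ sF + f2)) ∧
  (c + min sF f ≤ sA ∨ (eO f1 c1 F1 A1 + eO f2 c2 F2 A2 ≤ sA ∧
    f + c + eO f1 c1 F1 A1 ≤ sA + (f1 + c1) ∧ f + c + eO f2 c2 F2 A2 ≤ sA + (f2 + c2)))

/-- single set: the needs add -/
def NR (x s x1 s1 x2 s2 : ℕ) : Prop :=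
  min s1 x1 ≤ s ∧ min s2 x2 ≤ s ∧ x + min s1 x1 + min s2 x2 ≤ s + x1 + x2

/-- single set: the slacks add -/
def SR (x s x1 s1 x2 s2 : ℕ) : Prop :=
  x ≤ s ∨ (min s1 x1 + min s2 x2 ≤ s ∧ x + min s1 x1 ≤ s + x1 ∧ x + min s2 x2 ≤ s + x2)

theorem NR.step {x s x1 s1 x2 s2 m : ℕ} (h : NR x s x1 s1 x2 s2) (h1 : m ≤ 1) (h2 : m ≤ x) :
    NR (x - m) s (x1 - min m x1) s1 x2 s2 ∧ NR (x - m) s x1 s1 (x2 - min m x2) s2 ∧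
      (min m x1 ≤ s1 → min m x2 ≤ s2 → m ≤ s ∧
        NR (x - m) (s - m) (x1 - min m x1) (s1 - min m x1) (x2 - min m x2) (s2 - min m x2)) := by
  unfold NR at *
  omega

theorem SR.step {x s x1 s1 x2 s2 m : ℕ} (h : SR x s x1 s1 x2 s2) (h1 : m ≤ 1) (h2 : m ≤ x) :
    (min m x1 ≤ s1 → m ≤ s ∧ SR (x - m) (s - m) (x1 - min m x1) (s1 - min m x1) x2 s2) ∧
      (min m x2 ≤ s2 → m ≤ s ∧ SR (x - m) (s - m) x1 s1 (x2 - min m x2) (s2 - min m x2)) ∧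
      SR (x - m) s (x1 - min m x1) s1 (x2 - min m x2) s2 := by
  unfold SR at *
  omega

/-- the mark that is passed: `k = 0` none, `k = 1` inner first, `k = 2` outer first,
`k = 3` outer only -/
def pI (k f c : ℕ) : ℕ := if (k = 1 ∧ 0 < f) ∨ (k = 2 ∧ c = 0 ∧ 0 < f) then 1 else 0

def pO (k f c : ℕ) : ℕ := if (k = 1 ∧ f = 0 ∧ 0 < c) ∨ (2 ≤ k ∧ 0 < c) then 1 else 0

theorem pfit (k f c : ℕ) : pI k f c + pO k f c ≤ 1 ∧ pI k f c ≤ f ∧ pO k f c ≤ c := by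
  unfold pI pO
  split_ifs <;> omega

/-- what one passed mark does to the effective slacks of one game -/
theorem trans (f c F A p o : ℕ) (h : p + o ≤ 1 ∧ p ≤ f ∧ o ≤ c) :
    (eI f F A ≤ f ∧ eI f F A ≤ eO f c F A ∧ eO f c F A ≤ c + eI f F A) ∧
    (eI (f - p) F A ≤ eI f F A ∧ eO (f - p) (c - o) F A ≤ eO f c F A ∧
      eI (f - p) F A + p ≤ f ∧ eO (f - p) (c - o) F A + o ≤ c + eI (f - p) F A) ∧
    (p ≤ F → p + o ≤ A → eI (f - p) (F - p) (A - (p + o)) + p ≤ eI f F A ∧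
      eO (f - p) (c - o) (F - p) (A - (p + o)) + (p + o) = eO f c F A ∧
      eI (f - p) (F - p) (A - (p + o)) ≤ eO (f - p) (c - o) (F - p) (A - (p + o))) := by
  unfold eI eO
  omega

theorem pcases (k f c : ℕ) :
    (k = 0 → pI k f c = 0 ∧ pO k f c = 0) ∧
    (k = 1 → (pI k f c = 1 ∧ pO k f c = 0) ∨ (f = 0 ∧ pI k f c = 0 ∧ pO k f c = 1) ∨
      (f = 0 ∧ c = 0 ∧ pI k f c = 0 ∧ pO k f c = 0)) ∧
    (k = 2 → (pI k f c = 0 ∧ pO k f c = 1) ∨ (c = 0 ∧ pI k f c = 1 ∧ pO k f c = 0) ∨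
      (f = 0 ∧ c = 0 ∧ pI k f c = 0 ∧ pO k f c = 0)) ∧
    (k = 3 → (pI k f c = 0 ∧ pO k f c = 1) ∨ (c = 0 ∧ pI k f c = 0 ∧ pO k f c = 0)) := by
  unfold pI pO
  split_ifs <;> omega

theorem NL.step {f c sF sA f1 c1 F1 A1 f2 c2 F2 A2 mf mc : ℕ}
    (h : NL f c sF sA f1 c1 F1 A1 f2 c2 F2 A2) (h1 : mf + mc ≤ 1) (h2 : mf ≤ f) (h3 : mc ≤ c) :
    ∃ k, NL (f - mf) (c - mc) sF sA (f1 - pI k f1 c1) (c1 - pO k f1 c1) F1 A1 f2 c2 F2 A2 ∧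
      NL (f - mf) (c - mc) sF sA f1 c1 F1 A1 (f2 - pI k f2 c2) (c2 - pO k f2 c2) F2 A2 ∧
      (pI k f1 c1 ≤ F1 → pI k f1 c1 + pO k f1 c1 ≤ A1 → pI k f2 c2 ≤ F2 →
        pI k f2 c2 + pO k f2 c2 ≤ A2 → mf ≤ sF ∧ mf + mc ≤ sA ∧
        NL (f - mf) (c - mc) (sF - mf) (sA - (mf + mc))
          (f1 - pI k f1 c1) (c1 - pO k f1 c1) (F1 - pI k f1 c1) (A1 - (pI k f1 c1 + pO k f1 c1))
          (f2 - pI k f2 c2) (c2 - pO k f2 c2) (F2 - pI k f2 c2)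
          (A2 - (pI k f2 c2 + pO k f2 c2))) := by
  obtain ⟨k, hk⟩ : ∃ k, (k = 0 ∧ mf = 0 ∧ mc = 0) ∨ (k = 1 ∧ mf = 1 ∧ mc = 0) ∨
      (k = 2 ∧ mf = 0 ∧ mc = 1 ∧ (sA ≤ sF ∨ f + eI f1 F1 A1 + eI f2 F2 A2 < sF + f1 + f2)) ∨
      (k = 3 ∧ mf = 0 ∧ mc = 1 ∧ sF < sA ∧ sF + f1 + f2 ≤ f + eI f1 F1 A1 + eI f2 F2 A2) := by
    by_cases k0 : mf + mc = 0
    · exact ⟨0, by omega⟩
    by_cases k1 : mf = 1
    · exact ⟨1, by omega⟩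
    by_cases k2 : sA ≤ sF ∨ f + eI f1 F1 A1 + eI f2 F2 A2 < sF + f1 + f2
    · exact ⟨2, by omega⟩
    · exact ⟨3, by omega⟩
  refine ⟨k, ?_⟩
  have t1 := trans f1 c1 F1 A1 _ _ (pfit k f1 c1)
  have t2 := trans f2 c2 F2 A2 _ _ (pfit k f2 c2)
  have e1 := pfit k f1 c1
  have e2 := pfit k f2 c2
  have q1 := pcases k f1 c1
  have q2 := pcases k f2 c2
  unfold NL at *
  generalize pI k f1 c1 = p1 at *
  generalize pO k f1 c1 = o1 at *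
  generalize pI k f2 c2 = p2 at *
  generalize pO k f2 c2 = o2 at *
  obtain ⟨s1, l1, r1⟩ := t1
  obtain ⟨s2, l2, r2⟩ := t2
  refine ⟨?_, ?_, fun a1 a2 a3 a4 => ?_⟩
  · clear r1 r2 l2 q2
    rcases hk with ⟨rfl, rfl, rfl⟩ | ⟨rfl, rfl, rfl⟩ | ⟨rfl, rfl, rfl, hk⟩ | ⟨rfl, rfl, rfl, hk⟩ <;>
      (first | replace q1 := q1.1 rfl | replace q1 := q1.2.1 rfl | replace q1 := q1.2.2.1 rfl |
        replace q1 := q1.2.2.2 rfl) <;> omega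
  · clear r1 r2 l1 q1
    rcases hk with ⟨rfl, rfl, rfl⟩ | ⟨rfl, rfl, rfl⟩ | ⟨rfl, rfl, rfl, hk⟩ | ⟨rfl, rfl, rfl, hk⟩ <;>
      (first | replace q2 := q2.1 rfl | replace q2 := q2.2.1 rfl | replace q2 := q2.2.2.1 rfl |
        replace q2 := q2.2.2.2 rfl) <;> omega
  · have r1 := r1 a1 a2
    have r2 := r2 a3 a4
    clear l1 l2 a1 a2 a3 a4
    rcases hk with ⟨rfl, rfl, rfl⟩ | ⟨rfl, rfl, rfl⟩ | ⟨rfl, rfl, rfl, hk⟩ | ⟨rfl, rfl, rfl, hk⟩ <;>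
      (first | replace q1 := q1.1 rfl | replace q1 := q1.2.1 rfl | replace q1 := q1.2.2.1 rfl |
        replace q1 := q1.2.2.2 rfl) <;>
      (first | replace q2 := q2.1 rfl | replace q2 := q2.2.1 rfl | replace q2 := q2.2.2.1 rfl |
        replace q2 := q2.2.2.2 rfl) <;> omega

theorem SL.step {f c sF sA f1 c1 F1 A1 f2 c2 F2 A2 mf mc : ℕ}
    (h : SL f c sF sA f1 c1 F1 A1 f2 c2 F2 A2) (h1 : mf + mc ≤ 1) (h2 : mf ≤ f) (h3 : mc ≤ c) :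
    ∃ k, (pI k f1 c1 ≤ F1 → pI k f1 c1 + pO k f1 c1 ≤ A1 → mf ≤ sF ∧ mf + mc ≤ sA ∧
        SL (f - mf) (c - mc) (sF - mf) (sA - (mf + mc))
          (f1 - pI k f1 c1) (c1 - pO k f1 c1) (F1 - pI k f1 c1) (A1 - (pI k f1 c1 + pO k f1 c1))
          f2 c2 F2 A2) ∧
      (pI k f2 c2 ≤ F2 → pI k f2 c2 + pO k f2 c2 ≤ A2 → mf ≤ sF ∧ mf + mc ≤ sA ∧
        SL (f - mf) (c - mc) (sF - mf) (sA - (mf + mc)) f1 c1 F1 A1
          (f2 - pI k f2 c2) (c2 - pO k f2 c2) (F2 - pI k f2 c2)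
          (A2 - (pI k f2 c2 + pO k f2 c2))) ∧
      SL (f - mf) (c - mc) sF sA (f1 - pI k f1 c1) (c1 - pO k f1 c1) F1 A1
        (f2 - pI k f2 c2) (c2 - pO k f2 c2) F2 A2 := by
  obtain ⟨k, hk⟩ : ∃ k, (k = 0 ∧ mf = 0 ∧ (mc = 0 ∨ (mc = 1 ∧ c + min sF f ≤ sA))) ∨
      (k = 1 ∧ mf = 1 ∧ mc = 0) ∨ (k = 2 ∧ mf = 0 ∧ mc = 1 ∧ sA < c + min sF f) := by
    by_cases k0 : mf + mc = 0 ∨ (mf = 0 ∧ c + min sF f ≤ sA)
    · exact ⟨0, by omega⟩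
    by_cases k1 : mf = 1
    · exact ⟨1, by omega⟩
    · exact ⟨2, by omega⟩
  refine ⟨k, ?_⟩
  have t1 := trans f1 c1 F1 A1 _ _ (pfit k f1 c1)
  have t2 := trans f2 c2 F2 A2 _ _ (pfit k f2 c2)
  have e1 := pfit k f1 c1
  have e2 := pfit k f2 c2
  have q1 := pcases k f1 c1
  have q2 := pcases k f2 c2
  unfold SL at *
  generalize pI k f1 c1 = p1 at *
  generalize pO k f1 c1 = o1 at *
  generalize pI k f2 c2 = p2 at *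
  generalize pO k f2 c2 = o2 at *
  obtain ⟨s1, l1, r1⟩ := t1
  obtain ⟨s2, l2, r2⟩ := t2
  refine ⟨fun a1 a2 => ?_, fun a1 a2 => ?_, ?_⟩
  · have r1 := r1 a1 a2
    clear r2 l1 l2 q2 a1 a2
    rcases hk with ⟨rfl, rfl, hk⟩ | ⟨rfl, rfl, rfl⟩ | ⟨rfl, rfl, rfl, hk⟩ <;>
      (first | replace q1 := q1.1 rfl | replace q1 := q1.2.1 rfl | replace q1 := q1.2.2.1 rfl) <;> omega
  · have r2 := r2 a1 a2
    clear r1 l1 l2 q1 a1 a2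
    rcases hk with ⟨rfl, rfl, hk⟩ | ⟨rfl, rfl, rfl⟩ | ⟨rfl, rfl, rfl, hk⟩ <;>
      (first | replace q2 := q2.1 rfl | replace q2 := q2.2.1 rfl | replace q2 := q2.2.2.1 rfl) <;> omega
  · clear r1 r2
    rcases hk with ⟨rfl, rfl, hk⟩ | ⟨rfl, rfl, rfl⟩ | ⟨rfl, rfl, rfl, hk⟩ <;>
      (first | replace q1 := q1.1 rfl | replace q1 := q1.2.1 rfl | replace q1 := q1.2.2.1 rfl) <;>
      (first | replace q2 := q2.1 rfl | replace q2 := q2.2.1 rfl | replace q2 := q2.2.2.1 rfl) <;> omega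

/-- `α` of `s` is at most the sum of the `α` of `u` and `v`, with the same `β` -/
def AddA (s u v : St) : Prop :=
  NL s.f s.c s.sF s.sA u.f u.c u.sF u.sA v.f v.c v.sF v.sA ∧
    NL s.g s.e s.sG s.sW u.g u.e u.sG u.sW v.g v.e v.sG v.sW ∧
    SR s.x s.sX u.x u.sX v.x v.sX ∧ SR s.y s.sY u.y u.sY v.y v.sY

/-- `β` of `s` is at least the sum of the `β` of `u` and `v`, with the same `α` -/
def AddB (s u v : St) : Prop :=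
  SL s.f s.c s.sF s.sA u.f u.c u.sF u.sA v.f v.c v.sF v.sA ∧
    SL s.g s.e s.sG s.sW u.g u.e u.sG u.sW v.g v.e v.sG v.sW ∧
    NR s.x s.sX u.x u.sX v.x v.sX ∧ NR s.y s.sY u.y u.sY v.y v.sY

/-- the coin that is passed to a game -/
def pass (k l : ℕ) (m : Coin) (u : St) : Coin :=
  ⟨pI k u.f u.c, pO k u.f u.c, pI l u.g u.e, pO l u.g u.e, min m.x u.x, min m.y u.y⟩

theorem pass_fits (k l : ℕ) {m : Coin} (h1 : m.x ≤ 1) (h2 : m.y ≤ 1) (u : St) :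
    (pass k l m u).fits u := by
  have a := pfit k u.f u.c
  have b := pfit l u.g u.e
  simp only [Coin.fits, pass]
  omega

theorem LW.addA {s u v : St} (hu : LW u) (hv : LW v) (h : AddA s u v) : LW s := by
  refine LW.coind (fun t => ∃ u v, AddA t u v ∧ LW u ∧ LW v) ?_ ⟨u, v, h, hu, hv⟩
  rintro t ⟨u, v, ⟨hA, hW, hX, hY⟩, hu, hv⟩ m ⟨⟨m1, m2, m3, m4, m5, m6, m7, m8, m9, m10⟩, -, -⟩
  obtain ⟨k, a1, a2, a3⟩ := hA.step m1 m5 m6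
  obtain ⟨l, w1, w2, w3⟩ := hW.step m2 m7 m8
  obtain ⟨x1, x2, x3⟩ := hX.step m3 m9
  obtain ⟨y1, y2, y3⟩ := hY.step m4 m10
  rcases hu.step' _ (pass_fits k l m3 m4 u) with p | p
  · exact Or.inl ⟨⟨(x1 p.1.1).1, (y1 p.1.2).1⟩,
      Or.inl ⟨u.goL (pass k l m u), v, ⟨a1, w1, (x1 p.1.1).2, (y1 p.1.2).2⟩, p.2, hv⟩⟩
  rcases hv.step' _ (pass_fits k l m3 m4 v) with q | q
  · exact Or.inl ⟨⟨(x2 q.1.1).1, (y2 q.1.2).1⟩,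
      Or.inl ⟨u, v.goL (pass k l m v), ⟨a2, w2, (x2 q.1.1).2, (y2 q.1.2).2⟩, hu, q.2⟩⟩
  have a := a3 p.1.1 p.1.2.1 q.1.1 q.1.2.1
  have w := w3 p.1.2.2.1 p.1.2.2.2 q.1.2.2.1 q.1.2.2.2
  exact Or.inr ⟨⟨a.1, a.2.1, w.1, w.2.1⟩, Or.inl ⟨u.goR (pass k l m u), v.goR (pass k l m v),
    ⟨a.2.2, w.2.2, x3, y3⟩, p.2, q.2⟩⟩

theorem LW.addB {s u v : St} (hu : LW u) (hv : LW v) (h : AddB s u v) : LW s := by
  refine LW.coind (fun t => ∃ u v, AddB t u v ∧ LW u ∧ LW v) ?_ ⟨u, v, h, hu, hv⟩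
  rintro t ⟨u, v, ⟨hA, hW, hX, hY⟩, hu, hv⟩ m ⟨⟨m1, m2, m3, m4, m5, m6, m7, m8, m9, m10⟩, -, -⟩
  obtain ⟨k, a1, a2, a3⟩ := hA.step m1 m5 m6
  obtain ⟨l, w1, w2, w3⟩ := hW.step m2 m7 m8
  obtain ⟨x1, x2, x3⟩ := hX.step m3 m9
  obtain ⟨y1, y2, y3⟩ := hY.step m4 m10
  rcases hu.step' _ (pass_fits k l m3 m4 u) with p | p
  · rcases hv.step' _ (pass_fits k l m3 m4 v) with q | q
    · have x := x3 p.1.1 q.1.1
      have y := y3 p.1.2 q.1.2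
      exact Or.inl ⟨⟨x.1, y.1⟩, Or.inl ⟨u.goL (pass k l m u), v.goL (pass k l m v),
        ⟨a3, w3, x.2, y.2⟩, p.2, q.2⟩⟩
    · have a := a2 q.1.1 q.1.2.1
      have w := w2 q.1.2.2.1 q.1.2.2.2
      exact Or.inr ⟨⟨a.1, a.2.1, w.1, w.2.1⟩, Or.inl ⟨u, v.goR (pass k l m v),
        ⟨a.2.2, w.2.2, x2, y2⟩, hu, q.2⟩⟩
  · have a := a1 p.1.1 p.1.2.1
    have w := w1 p.1.2.2.1 p.1.2.2.2
    exact Or.inr ⟨⟨a.1, a.2.1, w.1, w.2.1⟩, Or.inl ⟨u.goR (pass k l m u), v,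
      ⟨a.2.2, w.2.2, x1, y1⟩, p.2, hv⟩⟩

end Pool.Agent.MP_242484_co.On
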