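import Pool.Agent.MP_242484_co.on.Piece

/-!
The chain of junctions, online version.
-/

set_option autoImplicit false

namespace Pool.Agent.MP_242484_co.On

open Finset

noncomputable instance instDecCG (T : CG) : DecidableEq T.V := Classical.decEq _

theorem win_irrel {V : Type} (i1 i2 : DecidableEq V) {G : SimpleGraph V} {g h : V → ℕ}
    (W : @Win V i1 G g h) : @Win V i2 G g h := by
  cases Subsingleton.elim i1 i2
  exact W

/-- both terminals are leaves and they are distinct -/
structure Good (T : CG) : Prop where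
  ne : T.X ≠ T.y
  lx : ∃ v, T.G.Adj T.X v ∧ ∀ u, T.G.Adj T.X u → u = v
  ly : ∃ v, T.G.Adj T.y v ∧ ∀ u, T.G.Adj T.y u → u = v

/-- Painter wins with `rX`, `ry` tokens and needs `hX`, `hy` at the terminals -/
def Phi (T : CG) (a b rX hX ry hy : ℕ) : Prop :=
  ∀ g h : T.V → ℕ, rX ≤ g T.X → ry ≤ g T.y → (∀ u, u ≠ T.X → u ≠ T.y → a ≤ g u) →
    h T.X ≤ hX → h T.y ≤ hy → (∀ u, u ≠ T.X → u ≠ T.y → h u ≤ b) → Win T.G g h

theorem Good.swap {T : CG} (H : Good T) : Good T.swap := ⟨H.ne.symm, H.ly, H.lx⟩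

theorem Phi.swap {T : CG} {a b rX hX ry hy : ℕ} (H : Phi T a b rX hX ry hy) :
    Phi T.swap a b ry hy rX hX :=
  fun g h k1 k2 k3 k4 k5 k6 => H g h k2 k1 (fun u p q => k3 u q p) k5 k4 (fun u p q => k6 u q p)

theorem Phi.mono {T : CG} {a b rX hX ry hy rX' hX' ry' hy' : ℕ} (H : Phi T a b rX hX ry hy)
    (h1 : rX ≤ rX') (h2 : hX' ≤ hX) (h3 : ry ≤ ry') (h4 : hy' ≤ hy) : Phi T a b rX' hX' ry' hy' :=
  fun g h k1 k2 k3 k4 k5 k6 => H g h (h1.trans k1) (h3.trans k2) k3 (k4.trans h2) (k5.trans h4) k6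

theorem Good.leaf {T : CG} (H : Good T) : Good T.leaf := by
  obtain ⟨v, hv, hu⟩ := H.ly
  refine ⟨by simp [CG.leaf], ⟨some T.X, rfl, ?_⟩, ⟨some v, hv, ?_⟩⟩
  · rintro (_ | u) h
    · exact h.elim
    · exact congrArg some h
  · rintro (_ | u) h
    · exact absurd (show T.y = T.X from h).symm H.ne
    · exact congrArg some (hu u h)

theorem addV_eq {V : Type} (G : SimpleGraph V) (p : V) : addV G (fun v => v = p) = addLeaf G p := by
  ext (_ | u) (_ | v) <;> rfl

theorem Phi.leaf {T : CG} (HG : Good T) {a b rX hX ry hy r' h' : ℕ} (H : Phi T a b rX hX ry hy)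
    (h1 : h' ≤ r') (h2 : b + h' ≤ hX + r') (h3 : rX + r' ≤ a) (h4 : hy ≤ b) (h5 : 2 * b ≤ a) :
    Phi T.leaf a b r' h' ry hy := by
  intro g h k1 k2 k3 k4 k5 k6
  obtain ⟨v, hv, hu⟩ := HG.lx
  have hne := HG.ne
  have n1 : ∀ u : T.V, (some u : Option T.V) ≠ T.leaf.X := fun u => by simp [CG.leaf]
  have n2 : ∀ u : T.V, u ≠ T.y → (some u : Option T.V) ≠ T.leaf.y := fun u hu => by
    simpa [CG.leaf] using hu
  have gX : a ≤ g (some T.X) := k3 _ (n1 _) (n2 _ hne)
  have hX' : h (some T.X) ≤ b := k6 _ (n1 _) (n2 _ hne)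
  have k1' : r' ≤ g none := k1
  have k2' : ry ≤ g (some T.y) := k2
  have k4' : h none ≤ h' := k4
  have k5' : h (some T.y) ≤ hy := k5
  have hb : ∀ u, h (some u) ≤ b := by
    intro u
    by_cases hy' : u = T.y
    · rw [hy']; omega
    · exact k6 _ (n1 _) (n2 _ hy')
  have W0 := H (fun u => if u = T.X then rX else g (some u))
    (fun u => if u = T.X then hX else h (some u)) (by simp) (by simpa [hne.symm] using k2')
    (fun u p q => by simpa [p] using k3 _ (n1 u) (n2 u q)) (by simp)
    (by simpa [hne.symm] using k5') (fun u p q => by simpa [p] using hb u)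
  have W1 := W0.leaf T.X v hv hu (g := fun o => o.elim r' (fun u => g (some u))) (h := h)
    (fun u p => by simp [p]) (fun u p => by simp [p]) (by simp; omega) (by simp; omega)
    (by simp; omega) (by have := hb v; simp [hv.ne.symm]; omega)
  have W2 : Win (addLeaf T.G T.X) g h := W1.mono (fun _ => le_rfl) (by
    rintro (_ | u) _
    · exact k1'
    · exact le_rfl)
  rw [← addV_eq] at W2
  exact win_irrel _ _ W2

theorem Good.rail {T : CG} (H : Good T) (k : ℕ) : Good (T.rail k) := by
  induction k with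
  | zero => exact H
  | succ k ih => exact ih.leaf.leaf

theorem Phi.rail {T : CG} (HG : Good T) {b e r h ry hy : ℕ} (H : Phi T (2 * b + e) b r h ry hy)
    (h1 : b ≤ r) (h2 : r ≤ b + e) (h4 : hy ≤ b) (k h' : ℕ) (h5 : h' ≤ b) (h6 : h' ≤ h + k * e) :
    Phi (T.rail k) (2 * b + e) b r h' ry hy := by
  induction k generalizing h' with
  | zero => exact H.mono le_rfl (by omega) le_rfl le_rfl
  | succ k ih =>
    have e1 : (k + 1) * e = k * e + e := by ring
    have H1 := ih (h' - e) (by omega) (by omega)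
    have H2 := H1.leaf (HG.rail k) (r' := 2 * b + e - r) (h' := h' - e + b + e - r) (by omega)
      (by omega) (by omega) h4 (by omega)
    exact H2.leaf (HG.rail k).leaf (by omega) (by omega) (by omega) h4 (by omega)

/-! ### the base -/

theorem good_base : Good CG.pt.leaf := by
  refine ⟨by simp [CG.leaf], ⟨some (), rfl, ?_⟩, ⟨none, rfl, ?_⟩⟩
  · rintro (_ | u) h
    · exact h.elim
    · rfl
  · rintro (_ | u) h
    · rfl
    · exact h.elim

theorem phi_base {a b rX hX ry hy : ℕ} (h1 : hX + hy ≤ rX) (h2 : hy ≤ ry) :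
    Phi CG.pt.leaf a b rX hX ry hy := by
  intro g h k1 k2 _ k4 k5 _
  have k4' : h none ≤ hX := k4
  have k5' : h (some ()) ≤ hy := k5
  have W := (win_edge rX ry hX hy h1 h2).proj (V' := Option Unit) (G' := CG.pt.leaf.G)
    (fun o => o.elim 0 (fun _ => 1)) (by
      rintro (_ | u) (_ | v) _
      · exact Or.inl rfl
      · exact Or.inr (by simp [Pa])
      · exact Or.inr (by simp [Pa])
      · exact Or.inl rfl) (g' := g) (h' := h) (by
      intro v
      fin_cases v
      · simp only [sum_filter, Fintype.sum_option]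
        simp
        exact k4'
      · simp only [sum_filter, Fintype.sum_option]
        simp
        exact k5') (by
      rintro (_ | u)
      · exact k1
      · exact k2)
  exact win_irrel _ _ W

/-! ### the junction piece -/

/-- a junction with one leaf on each side -/
noncomputable def piece (T : CG) : CG :=
  ⟨T.V ⊕ Fin 4, inferInstance, junG T.G T.X T.y, Sum.inr 0, Sum.inr 3⟩

theorem good_piece (T : CG) : Good (piece T) := by
  refine ⟨by simp [piece], ⟨Sum.inr 1, ?_, ?_⟩, ⟨Sum.inr 2, ?_, ?_⟩⟩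
  · change (Pa 5).Adj _ _; decide
  · rintro (u | u) h
    · exact absurd h.2 (by decide)
    · have h' : (Pa 5).Adj ((![0, 1, 3, 4] : Fin 4 → Fin 5) 0) (![0, 1, 3, 4] u) := h
      revert h'
      fin_cases u <;> simp [Pa]
  · change (Pa 5).Adj _ _; decide
  · rintro (u | u) h
    · exact absurd h.2 (by decide)
    · have h' : (Pa 5).Adj ((![0, 1, 3, 4] : Fin 4 → Fin 5) 3) (![0, 1, 3, 4] u) := h
      revert h'
      fin_cases u <;> simp [Pa]

theorem piece_low {T : CG} {N n : ℕ} (H : T.LowO N n) : (piece T).LowE (N + 2) (n + 1) := by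
  have H1 := swap_lowE (leaf_lowE (swap_lowO (leaf_lowO (ojun_low H))))
  intro a b C hC
  let φ : Option (Option (Option (Option T.V))) → T.V ⊕ Fin 4 := fun o =>
    o.elim (Sum.inr 3) fun o => o.elim (Sum.inr 0) fun o => o.elim (Sum.inr 1) fun o =>
      o.elim (Sum.inr 2) Sum.inl
  have p1 : ∀ u, u = T.X ∨ u = T.y → (piece T).G.Adj (Sum.inl u) (Sum.inr 1) :=
    fun u hu => ⟨by simpa using hu, by decide⟩
  have p2 : ∀ u, u = T.X ∨ u = T.y → (piece T).G.Adj (Sum.inl u) (Sum.inr 2) :=
    fun u hu => ⟨by simpa using hu, by decide⟩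
  have p3 : (piece T).G.Adj (Sum.inr 0) (Sum.inr 1) := by change (Pa 5).Adj _ _; decide
  have p4 : (piece T).G.Adj (Sum.inr 3) (Sum.inr 2) := by change (Pa 5).Adj _ _; decide
  refine H1 a b (fun o => C (φ o)) ⟨fun o => hC.1 _, ?_⟩
  intro u v huv
  refine hC.2 _ _ ?_
  rcases u with _ | _ | _ | _ | u <;> rcases v with _ | _ | _ | _ | v <;>
    first
    | exact p3 | exact p3.symm | exact p4 | exact p4.symm | exact huv
    | exact p2 _ huv | exact (p2 _ huv).symm
    | exact p1 _ (huv.imp Option.some.inj Option.some.inj)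
    | exact (p1 _ (huv.imp Option.some.inj Option.some.inj)).symm
    | exact huv.elim
    | (rcases huv with k | k <;> cases k)

theorem piece_up {T : CG} (HG : Good T) {b e l rf hf rg hg : ℕ}
    (H : Phi T (2 * b + e) b (b + l) b b b) (hl : l ≤ e) {f c g w sF sG : ℕ}
    (L : LW ⟨f, c, g, w, 2 * b + e, 2 * b + e, sF, b + e, sG, b + e, b + e - l, b + e⟩)
    (S1 : Side (2 * b + e) b rf hf f c sF (b + e)) (S2 : Side (2 * b + e) b rg hg g w sG (b + e)) :
    Phi (piece T) (2 * b + e) b rf hf rg hg := by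
  intro g0 h0 k1 k2 k3 k4 k5 k6
  have hne := HG.ne
  have W0 := H (fun u => if u = T.X then b + l else if u = T.y then b else 2 * b + e) (fun _ => b)
    (by simp) (by simp [hne.symm]) (fun u p q => by simp [p, q]) le_rfl le_rfl (fun _ _ _ => le_rfl)
  have W1 := win_of_pinv (G := T.G) (X := T.X) (y := T.y)
    (g := Sum.elim (fun _ => 2 * b + e) ![rf, 2 * b + e, 2 * b + e, rg])
    (h := Sum.elim (fun _ => b) ![hf, b, b, hg])
    ⟨_, _, _, W0, L, fun _ => le_rfl, fun u => by simp only [Sum.elim_inl]; split_ifs <;> omega,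
      by simp; omega, by simp; omega, by simp [hne.symm]; omega, by simp [hne.symm]; omega, S1, S2⟩
  refine win_irrel _ _ (W1.mono ?_ ?_)
  · rintro (u | u)
    · exact k6 _ (by simp [piece]) (by simp [piece])
    · fin_cases u
      · exact k4
      · exact k6 _ (by simp [piece]) (by simp [piece])
      · exact k6 _ (by simp [piece]) (by simp [piece])
      · exact k5
  · rintro (u | u) _
    · exact k3 _ (by simp [piece]) (by simp [piece])
    · fin_cases u
      · exact k1
      · exact k3 _ (by simp [piece]) (by simp [piece])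
      · exact k3 _ (by simp [piece]) (by simp [piece])
      · exact k2

/-! ### one step of the chain -/

theorem on_step (hE : EvenStmt) (hO : OddStmt) (m : ℕ) (hm : 2 ≤ m) (T : CG) (HG : Good T) :
    ∃ T' : CG, Good T' ∧ (∀ N n, T.LowO N n → T'.LowO (N + m) (n + 1)) ∧
      ∀ b e l, e ≤ b → l < e → Phi T (2 * b + e) b (b + l) b b b →
        (∀ l', l' < e → b + l ≤ m * e + l' → Phi T' (2 * b + e) b (b + l') b b b) ∧
        (b + l ≤ m * e + e → Phi T' (2 * b + e) b (b + e) b (b + e) b) := by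
  have G0 := good_piece T
  rcases Nat.even_or_odd' m with ⟨s, rfl | rfl⟩
  · obtain ⟨s, rfl⟩ : ∃ k, s = k + 1 := ⟨s - 1, by omega⟩
    refine ⟨(((piece T).rail s).swap.leaf.rail s).swap, ((G0.rail s).swap.leaf.rail s).swap, ?_, ?_⟩
    · intro N n h
      have := swap_lowO (rail_lowO (leaf_lowO (swap_lowE (rail_lowE (piece_low h) s))) s)
      rwa [show N + 2 + s + s = N + 2 * (s + 1) by ring] at this
    · intro b e l he hl H
      have e' : 2 * (s + 1) * e = 2 * (s * e) + 2 * e := by ring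
      rw [e']
      refine ⟨fun l' hl' hb => ?_, fun hb => ?_⟩
      · have L := hE b e l l' (b + e - (b - s * e)) he hl hl' (by omega) (by omega)
        have H1 := piece_up HG H hl.le (rf := b + l') (hf := b - s * e) (rg := b + e)
          (hg := b - s * e) L (by unfold Side; omega) (by unfold Side; omega)
        have H2 := (H1.rail G0 (by omega) (by omega) (by omega) s b le_rfl (by omega)).swap
        have H3 := H2.leaf (G0.rail s).swap (r' := b) (h' := b - s * e) (by omega) (by omega)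
          (by omega) le_rfl (by omega)
        exact (H3.rail (G0.rail s).swap.leaf le_rfl (by omega) le_rfl s b le_rfl (by omega)).swap
      · have L := hO b e l 0 (max e (b - (b - s * e - e))) he hl (by omega) (by omega) (by omega)
        have H1 := piece_up HG H hl.le (rf := b + e) (hf := b - s * e - (e - (b - (b - s * e - e))))
          (rg := b) (hg := b - s * e - e) L (by unfold Side; omega) (by unfold Side; omega)
        have H2 := (H1.rail G0 (by omega) (by omega) (by omega) s b le_rfl (by omega)).swap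
        have H3 := H2.leaf (G0.rail s).swap (r' := b + e) (h' := b - s * e) (by omega) (by omega)
          (by omega) le_rfl (by omega)
        exact (H3.rail (G0.rail s).swap.leaf (by omega) le_rfl le_rfl s b le_rfl (by omega)).swap
  · obtain ⟨t, rfl⟩ : ∃ k, s = k + 1 := ⟨s - 1, by omega⟩
    refine ⟨(((piece T).leaf.rail t).swap.rail (t + 1)).swap,
      ((G0.leaf.rail t).swap.rail (t + 1)).swap, ?_, ?_⟩
    · intro N n h
      have := swap_lowO (rail_lowO (swap_lowO (rail_lowO (leaf_lowO (piece_low h)) t)) (t + 1))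
      rwa [show N + 2 + t + (t + 1) = N + (2 * (t + 1) + 1) by ring] at this
    · intro b e l he hl H
      have e' : (2 * (t + 1) + 1) * e = 2 * (t * e) + 3 * e := by ring
      have e2 : (t + 1) * e = t * e + e := by ring
      rw [e']
      refine ⟨fun l' hl' hb => ?_, fun hb => ?_⟩
      · have L := hO b e l l' (b - (b - t * e - e)) he hl hl' (by omega) (by omega)
        have H1 := piece_up HG H hl.le (rf := b + e - l') (hf := b - t * e - l') (rg := b)
          (hg := b - t * e - e) L (by unfold Side; omega) (by unfold Side; omega)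
        have H2 := H1.leaf G0 (r' := b + l') (h' := b - t * e) (by omega) (by omega)
          (by omega) (by omega) (by omega)
        have H3 := (H2.rail G0.leaf (by omega) (by omega) (by omega) t b le_rfl (by omega)).swap
        exact (H3.rail (G0.leaf.rail t).swap le_rfl (by omega) le_rfl (t + 1) b le_rfl
          (by omega)).swap
      · have L := hE b e l 0 (b + e - (b - t * e - e)) he hl (by omega) (by omega) (by omega)
        have H1 := piece_up HG H hl.le (rf := b) (hf := b - t * e - e) (rg := b + e)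
          (hg := b - t * e - e) L (by unfold Side; omega) (by unfold Side; omega)
        have H2 := H1.leaf G0 (r' := b + e) (h' := b - t * e) (by omega) (by omega)
          (by omega) (by omega) (by omega)
        have H3 := (H2.rail G0.leaf (by omega) (by omega) (by omega) t b le_rfl (by omega)).swap
        exact (H3.rail (G0.leaf.rail t).swap (by omega) le_rfl le_rfl (t + 1) b le_rfl
          (by omega)).swap

/-- the invariant of the chain -/
def OnInv (p q n : ℕ) : Prop :=
  ∃ T : CG, ∃ N t : ℕ, Good T ∧ (N + 1) * q = (n + 1) * p + t ∧ t < q ∧ T.LowO N n ∧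
    ∀ b x, q * b ≤ p * x → x ≤ b → 0 < x → ∃ nu, nu ≤ x ∧ t * x ≤ q * nu ∧
      Phi T (2 * b + x) b (b + (x - nu)) b b b

theorem t_pos {p q n N t : ℕ} (hc : Nat.Coprime q p) (e : (N + 1) * q = (n + 1) * p + t)
    (hn : n + 1 < q) : 0 < t := by
  by_contra h
  have h0 : t = 0 := by omega
  subst h0
  have h1 : q ∣ (n + 1) * p := ⟨N + 1, by rw [mul_comm q, e]; rfl⟩
  have h2 := Nat.le_of_dvd (by omega) (hc.dvd_of_dvd_mul_right h1)
  omega

theorem nu_pos {q t x nu : ℕ} (ht : 0 < t) (hx : 0 < x) (h : t * x ≤ q * nu) : 0 < nu := by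
  by_contra h0
  have : nu = 0 := by omega
  subst this
  have := Nat.mul_pos ht hx
  omega

theorem on_zero (p q : ℕ) (hq : 0 < q) (hqp : q ≤ p) : OnInv p q 0 := by
  obtain ⟨m, t', hm, e, ht'⟩ := exists_m p q 0 hq hqp hq
  obtain ⟨s, rfl⟩ : ∃ s, m = s + 1 := ⟨m - 1, by omega⟩
  refine ⟨CG.pt.leaf.rail s, s, t', good_base.rail s, by omega, ht', ?_, ?_⟩
  · simpa using rail_lowO (leaf_lowO pt_lowE) s
  · intro b x hb hx _
    obtain ⟨nu', h1, h2, h3⟩ := next_nu p q 0 (s + 1) t' b x 0 hq e ht' hb (by simp)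
    refine ⟨nu', h1, h2, ?_⟩
    have e' : (s + 1) * x = s * x + x := by ring
    exact (phi_base (a := 2 * b + x) (b := b) (rX := b + (x - nu')) (hX := x - nu') (ry := b)
      (hy := b) (by omega) le_rfl).rail good_base (by omega) (by omega) le_rfl s b le_rfl (by omega)

theorem two_le_m {p q t m t' : ℕ} (hqp : 2 * q ≤ p) (ht : t < q) (e : t + m * q = p + t') :
    2 ≤ m := by
  by_contra h
  have : m * q ≤ 1 * q := Nat.mul_le_mul_right q (by omega)
  omega

theorem on_inv (hE : EvenStmt) (hO : OddStmt) (p q : ℕ) (hq : 0 < q) (hqp : 2 * q ≤ p)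
    (hc : Nat.Coprime q p) (n : ℕ) (hn : n + 1 < q) : OnInv p q n := by
  induction n with
  | zero => exact on_zero p q hq (by omega)
  | succ n ih =>
    obtain ⟨T, N, t, HG, e0, ht, hlow, hup⟩ := ih (by omega)
    obtain ⟨m, t', -, e, ht'⟩ := exists_m p q t hq (by omega) ht
    obtain ⟨T', HG', hl, hu⟩ := on_step hE hO m (two_le_m hqp ht e) T HG
    have e1 : (N + m + 1) * q = (n + 1 + 1) * p + t' := by nlinarith
    refine ⟨T', N + m, t', HG', e1, ht', hl N n hlow, ?_⟩
    intro b x hb hx hx0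
    obtain ⟨nu, h1, h2, H⟩ := hup b x hb hx hx0
    obtain ⟨nu', h1', h2', h3'⟩ := next_nu p q t m t' b x nu hq e ht' hb h2
    have p1 := nu_pos (t_pos hc e0 (by omega)) hx0 h2
    have p2 := nu_pos (t_pos hc e1 hn) hx0 h2'
    exact ⟨nu', h1', h2', (hu b x (x - nu) hx (by omega) H).1 (x - nu') (by omega) (by omega)⟩

theorem last_t {p q N t : ℕ} (hq : 0 < q) (e0 : (N + 1) * q = q * p + t) (ht : t < q) :
    t = 0 ∧ N + 1 = p := by
  have ht0 : t = 0 := by
    have h1 : q ∣ t := by
      have : q ∣ q * p + t := e0 ▸ Dvd.intro_left _ rfl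
      exact (Nat.dvd_add_right (Dvd.intro _ rfl)).1 this
    exact Nat.eq_zero_of_dvd_of_lt h1 ht
  refine ⟨ht0, ?_⟩
  subst ht0
  have : (N + 1) * q = p * q := by rw [e0]; ring
  exact Nat.eq_of_mul_eq_mul_right hq this

theorem on_last (hE : EvenStmt) (hO : OddStmt) (p q : ℕ) (hq : 0 < q) (hqp : 2 * q ≤ p)
    (hc : Nat.Coprime q p) :
    ∃ T : CG, ∃ N : ℕ, Good T ∧ N + 1 = p ∧ T.LowO N (q - 1) ∧
      ∀ b x, q * b ≤ p * x → x ≤ b → 0 < x → Phi T (2 * b + x) b (b + x) b (b + x) b := by
  rcases Nat.lt_or_ge q 2 with h2 | h2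
  · obtain rfl : q = 1 := by omega
    obtain ⟨T, N, t, HG, e0, ht, hlow, hup⟩ := on_zero p 1 hq (by omega)
    refine ⟨T, N, HG, by omega, hlow, fun b x hb hx hx0 => ?_⟩
    obtain ⟨nu, -, -, H⟩ := hup b x hb hx hx0
    exact H.mono (by omega) le_rfl (by omega) le_rfl
  · obtain ⟨n, rfl⟩ : ∃ n, q = n + 2 := ⟨q - 2, by omega⟩
    obtain ⟨T, N, t, HG, e0, ht, hlow, hup⟩ := on_inv hE hO p (n + 2) hq hqp hc n (by omega)
    obtain ⟨m, t', -, e, ht'⟩ := exists_m p (n + 2) t hq (by omega) ht
    obtain ⟨T', HG', hl, hu⟩ := on_step hE hO m (two_le_m hqp ht e) T HG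
    have e1 : (N + m + 1) * (n + 2) = (n + 2) * p + t' := by nlinarith
    refine ⟨T', N + m, HG', (last_t hq e1 ht').2, hl N n hlow, fun b x hb hx hx0 => ?_⟩
    obtain ⟨nu, h1, h2, H⟩ := hup b x hb hx hx0
    obtain ⟨nu', h1', h2', h3'⟩ := next_nu p (n + 2) t m t' b x nu hq e ht' hb h2
    have p1 := nu_pos (t_pos hc e0 (by omega)) hx0 h2
    exact (hu b x (x - nu) hx (by omega) H).2 (by omega)

theorem win_zero {V : Type} [DecidableEq V] (G : SimpleGraph V) (g : V → ℕ) :
    Win G g (fun _ => 0) := by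
  refine ⟨fun _ h => ∀ v, h v = 0, ?_, fun _ => rfl⟩
  intro g h h0
  refine ⟨fun v hv => by rw [h0 v] at hv; omega, fun M _ => ⟨∅, empty_subset _, by simp, ?_⟩⟩
  intro v
  have := dec_le h ∅ v
  have := h0 v
  omega

theorem on_graph (hE : EvenStmt) (hO : OddStmt) (p q : ℕ) (hq : 0 < q) (hqp : 2 * q ≤ p)
    (hc : Nat.Coprime q p) :
    ∃ n, ∃ H : SimpleGraph (Fin n), (∀ a b, (2 * p + q) * b ≤ p * a → Paintable H a b) ∧
      (∀ a b, Choosable H a b → (2 * p + q) * b ≤ p * a) := by
  obtain ⟨T, N, HG, hN, hlow, hup⟩ := on_last hE hO p q hq hqp hc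
  have hp : 0 < p := by omega
  refine blowup (glue T.G {T.X, T.y} (Pa 2) (fun _ : Unit => 1) 0) (fun _ => 1) _ p ?_ ?_
  · intro a b hab
    rcases Nat.eq_zero_or_pos b with rfl | hb0
    · exact win_zero _ _
    obtain ⟨x, hx1, hx2, hx3⟩ : ∃ x, q * b ≤ p * x ∧ x ≤ b ∧ 2 * b + x ≤ a := by
      have h1 : 2 * b ≤ a := by
        have : p * (2 * b) ≤ p * a := by nlinarith
        exact Nat.le_of_mul_le_mul_left this hp
      obtain ⟨d, rfl⟩ := Nat.exists_eq_add_of_le h1
      refine ⟨min b d, ?_, min_le_left _ _, by omega⟩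
      rcases le_total b d with h | h
      · rw [min_eq_left h]; exact Nat.mul_le_mul_right b (by omega)
      · rw [min_eq_right h]; nlinarith
    have hx0 : 0 < x := by
      by_contra h
      have : x = 0 := by omega
      subst this
      have := Nat.mul_pos hq hb0
      omega
    have hne := HG.ne
    have W1 := hup b x hx1 hx2 hx0
      (fun u => if u = T.X ∨ u = T.y then b + x else 2 * b + x) (fun _ => b) (by simp) (by simp)
      (fun u k1 k2 => by simp [k1, k2]) le_rfl le_rfl (fun _ _ _ => le_rfl)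
    have W2 := win_edge (3 * b) a (2 * b) b (by omega) (by omega)
    refine Win.join {T.X, T.y} (fun _ : Unit => (1 : Fin 2)) 0 (fun _ _ _ => rfl) (by decide) W1 W2
      ?_ ?_ (by simp) (by simp) (by simp)
    · rw [sum_pair hne]; simp; omega
    · intro u
      by_cases hu : u = T.X ∨ u = T.y
      · simp [hu]; omega
      · simp [hu]; omega
  · intro a b C h1 h2
    have e1 := cap_low hlow a b (fun o => C (o.elim (Sum.inr ()) Sum.inl))
      ⟨fun o => by simpa using h1 _, by
        rintro (_ | u) (_ | v) huv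
        · exact huv.elim
        · have k : v = T.X ∨ v = T.y := huv
          exact h2 _ _ ⟨by simpa using k, by decide⟩
        · have k : u = T.X ∨ u = T.y := huv
          exact h2 _ _ ⟨by simpa using k, by decide⟩
        · exact h2 _ _ huv⟩
    have e3 : ((q - 1 : ℕ) : ℤ) = q - 1 := by omega
    have e4 : (N : ℤ) + 1 = p := by exact_mod_cast hN
    rw [e3, e4] at e1
    zify
    nlinarith

theorem on_two : ∃ n, ∃ H : SimpleGraph (Fin n), (∀ a b, 2 * b ≤ 1 * a → Paintable H a b) ∧
    (∀ a b, Choosable H a b → 2 * b ≤ 1 * a) := by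
  refine blowup (Pa 2) (fun _ => 1) 2 1 ?_ ?_
  · intro a b hab
    refine (win_edge a a b b (by omega) (by omega)).mono ?_ ?_
    · intro v; fin_cases v <;> simp
    · intro v _; fin_cases v <;> simp
  · intro a b C h1 h2
    have := card_add_le (h1 0).1 (h1 1).1 (h2 0 1 (by decide))
    rw [(h1 0).2, (h1 1).2] at this
    omega

theorem exists_graph_paint (hE : EvenStmt) (hO : OddStmt) (r : ℚ) (hr : 2 ≤ r) :
    ∃ n, ∃ H : SimpleGraph (Fin n),
      sInf {s : ℝ | ∀ a b : ℕ, 0 < b → s ≤ (a : ℝ) / (b : ℝ) → Paintable H a b} = (r : ℝ) := by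
  rcases le_or_gt (5 / 2) r with h5 | h5
  · obtain ⟨n, H, -, h⟩ := exists_graph_rat r h5
    exact ⟨n, H, h⟩
  rcases hr.eq_or_lt with rfl | h2
  · obtain ⟨n, H, h1, h2⟩ := on_two
    refine ⟨n, H, ?_⟩
    simpa using sInf_eq _ 2 1 (by omega) (by omega) h1 (fun a b h => h2 a b h.choosable)
  have hnum : 0 ≤ r.num := Rat.num_nonneg.2 (by linarith)
  obtain ⟨m, hm⟩ := Int.eq_ofNat_of_zero_le hnum
  have hred := r.reduced
  set p := r.den with hp
  have hp0 : 0 < p := r.den_pos
  have hp' : (0 : ℚ) < p := by exact_mod_cast hp0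
  have hrq : r = (m : ℚ) / p := by
    rw [← Rat.num_div_den r, hm]; simp [hp]
  have k1 : 2 * p < m := by
    rw [hrq, lt_div_iff₀ hp'] at h2
    exact_mod_cast h2
  have k2 : 2 * m < 5 * p := by
    rw [hrq, div_lt_div_iff₀ hp' (by norm_num)] at h5
    have : (2 : ℚ) * m < 5 * p := by linarith
    exact_mod_cast this
  have hc : Nat.Coprime (m - 2 * p) p := by
    rw [hm, Int.natAbs_natCast] at hred
    rw [← Nat.coprime_add_mul_right_left (m - 2 * p) p 2, show m - 2 * p + 2 * p = m by omega]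
    exact hred
  obtain ⟨n, H, h1, h3⟩ := on_graph hE hO p (m - 2 * p) (by omega) (by omega) hc
  rw [show 2 * p + (m - 2 * p) = m by omega] at h1 h3
  refine ⟨n, H, ?_⟩
  rw [sInf_eq _ m p hp0 (by omega) h1 (fun a b h => h3 a b h.choosable), hrq]
  push_cast
  rfl

end Pool.Agent.MP_242484_co.On
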