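import Pool.Agent.MP_242484_co.on.Singles

/-!
The even starts follow from the tight flat.
-/

set_option autoImplicit false

namespace Pool.Agent.MP_242484_co.On

theorem even_tight (hG : GammaStmt) {b e l l' β : ℕ} (h1 : e ≤ b) (h2 : l < e) (h3 : l' < e)
    (h4 : 2 * β + l' = b + l) : LW (startE b e l l' β) := by
  have H2 : LW ⟨b + l + 1 - l', b, b, b + e - l', 2 * b + l + 1 - l', 2 * b + l + 1,
      β, b + e - l', β, b + e - l', b + 1, b + l + 1⟩ := by
    rcases Nat.le_total l' l with h | h
    · refine (hG β (β - (l - l'))).rxg (l - l') ?_ ?_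
      · dsimp only; omega
      · simp only [Off, O1, gam]; omega
    · have H3 : LW ⟨b + l + 1 - l', b, b + l - l', b + e - l', 2 * b + 1 + 2 * l - 2 * l',
          2 * b + 2 * l + 1 - l', β, b + e - l', β, b + e - l', b + 1 + l - l',
          b + 2 * l + 1 - l'⟩ := by
        refine (hG β β).ry (l' - l) ?_ ?_
        · dsimp only; omega
        · simp only [Off, O1, gam]; omega
      refine H3.lg (l' - l) ?_ ?_
      · dsimp only; omega
      · simp only [Off, O1]; omega
  have H1 : LW ⟨b + e - l', b, b, b + e - l', 2 * b + e - l', 2 * b + e,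
      β, b + e - l', β, b + e - l', b + e - l, b + e⟩ := by
    refine H2.lf (e - l - 1) ?_ ?_
    · dsimp only; omega
    · simp only [Off, O1]; omega
  refine H1.rx l' ?_ ?_
  · simp only [startE]; omega
  · simp only [Off, O1, startE]; omega

theorem even_of_gamma (hG : GammaStmt) : EvenStmt := by
  intro b e l l' β h1 h2 h3 _ h5
  by_cases k : (b + l + l') % 2 = 0
  · refine (even_tight hG (β := (b + l - l') / 2) h1 h2 h3 (by omega)).mono ?_
    simp only [Dom, DL, DR, startE]; omega
  by_cases k2 : 0 < l'
  · refine (even_tight hG (l' := l' - 1) (β := (b + l + 1 - l') / 2) h1 h2 (by omega)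
      (by omega)).mono ?_
    simp only [Dom, DL, DR, startE]; omega
  by_cases k3 : l + 1 < e
  · refine (even_tight hG (l := l + 1) (β := (b + l + 1 - l') / 2) h1 k3 h3 (by omega)).mono ?_
    simp only [Dom, DL, DR, startE]; omega
  refine (hG ((b - e) / 2) ((b + e) / 2)).swapL.rxg (e - 1) ?_ ?_
  · simp only [startE]; omega
  · simp only [Off, O1, startE, gam, St.swapL]; omega

end Pool.Agent.MP_242484_co.On
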