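import Mathlib.Tactic.Common
import Mathlib.Data.Nat.Basic

/-!
The linear coin game. Left sets `F ⊆ A`, `G ⊆ W`, right sets `X`, `Y`. A coin marks at most one
element of `A` (in `F` or in `A \ F`), at most one of `W`, and `X`, `Y` or both. Painter answers
left (the marked right sets lose one slack) or right (the marked left sets lose one slack).
-/

set_option autoImplicit false

namespace Pool.Agent.MP_242484_co.On

/-- sizes of `F`, `A \ F`, `G`, `W \ G`, `X`, `Y` and slacks of `F`, `A`, `G`, `W`, `X`, `Y` -/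
structure St where
  f : ℕ
  c : ℕ
  g : ℕ
  e : ℕ
  x : ℕ
  y : ℕ
  sF : ℕ
  sA : ℕ
  sG : ℕ
  sW : ℕ
  sX : ℕ
  sY : ℕ

/-- the marks of a coin -/
structure Coin where
  f : ℕ
  c : ℕ
  g : ℕ
  e : ℕ
  x : ℕ
  y : ℕ

/-- the coin can be played (it may be one-sided) -/
def Coin.fits (m : Coin) (s : St) : Prop :=
  m.f + m.c ≤ 1 ∧ m.g + m.e ≤ 1 ∧ m.x ≤ 1 ∧ m.y ≤ 1 ∧
    m.f ≤ s.f ∧ m.c ≤ s.c ∧ m.g ≤ s.g ∧ m.e ≤ s.e ∧ m.x ≤ s.x ∧ m.y ≤ s.y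

/-- the coin is two-sided and can be played -/
def Coin.ok (m : Coin) (s : St) : Prop :=
  m.fits s ∧ 1 ≤ m.f + m.c + m.g + m.e ∧ 1 ≤ m.x + m.y

def St.canL (s : St) (m : Coin) : Prop := m.x ≤ s.sX ∧ m.y ≤ s.sY

def St.canR (s : St) (m : Coin) : Prop :=
  m.f ≤ s.sF ∧ m.f + m.c ≤ s.sA ∧ m.g ≤ s.sG ∧ m.g + m.e ≤ s.sW

def St.goL (s : St) (m : Coin) : St :=
  ⟨s.f - m.f, s.c - m.c, s.g - m.g, s.e - m.e, s.x - m.x, s.y - m.y,
    s.sF, s.sA, s.sG, s.sW, s.sX - m.x, s.sY - m.y⟩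

def St.goR (s : St) (m : Coin) : St :=
  ⟨s.f - m.f, s.c - m.c, s.g - m.g, s.e - m.e, s.x - m.x, s.y - m.y,
    s.sF - m.f, s.sA - (m.f + m.c), s.sG - m.g, s.sW - (m.g + m.e), s.sX, s.sY⟩

/-- Painter can answer every coin and reach `Q` -/
def Next (Q : St → Prop) (s : St) : Prop :=
  ∀ m : Coin, m.ok s → (s.canL m ∧ Q (s.goL m)) ∨ (s.canR m ∧ Q (s.goR m))

/-- Painter wins the linear game from `s` -/
def LW (s : St) : Prop := ∃ P : St → Prop, (∀ t, P t → Next P t) ∧ P s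

theorem Next.imp {P Q : St → Prop} (h : ∀ t, P t → Q t) {s : St} (H : Next P s) : Next Q s :=
  fun m hm => (H m hm).imp (fun k => ⟨k.1, h _ k.2⟩) (fun k => ⟨k.1, h _ k.2⟩)

theorem LW.step {s : St} (H : LW s) : Next LW s := by
  obtain ⟨P, hP, hs⟩ := H
  exact (hP s hs).imp (fun t ht => ⟨P, hP, ht⟩)

/-- coinduction up to `LW` -/
theorem LW.coind (P : St → Prop) (hP : ∀ t, P t → Next (fun u => P u ∨ LW u) t) {s : St}
    (hs : P s) : LW s := by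
  refine ⟨fun u => P u ∨ LW u, ?_, Or.inl hs⟩
  rintro t (ht | ht)
  · exact hP t ht
  · exact ht.step.imp (fun _ => Or.inr)

theorem LW.intro {s : St} (H : Next LW s) : LW s :=
  LW.coind (fun t => t = s) (by rintro t rfl; exact H.imp (fun _ => Or.inr)) rfl

/-- `R s v` transfers wins from the virtual state `v` to the real state `s` -/
def Sound (R : St → St → Prop) : Prop := ∀ s v, R s v → LW v → LW s

/-- Simulation: each real coin is taken left, taken right, or passed to the virtual game. -/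
theorem sound_of_sim (R Q : St → St → Prop) (hQ : Sound Q)
    (h : ∀ s v, R s v → ∀ m : Coin, m.ok s →
      (s.canL m ∧ (R (s.goL m) v ∨ Q (s.goL m) v)) ∨
      (s.canR m ∧ (R (s.goR m) v ∨ Q (s.goR m) v)) ∨
      ∃ n : Coin, n.ok v ∧
        (v.canL n → s.canL m ∧ (R (s.goL m) (v.goL n) ∨ Q (s.goL m) (v.goL n))) ∧
        (v.canR n → s.canR m ∧ (R (s.goR m) (v.goR n) ∨ Q (s.goR m) (v.goR n)))) : Sound R := by
  intro s v hR hv
  refine LW.coind (fun t => ∃ u, R t u ∧ LW u) ?_ ⟨v, hR, hv⟩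
  rintro t ⟨u, hR, hu⟩ m hm
  have key : ∀ t' u', LW u' → R t' u' ∨ Q t' u' → (∃ u, R t' u ∧ LW u) ∨ LW t' := by
    rintro t' u' hu' (k | k)
    · exact Or.inl ⟨u', k, hu'⟩
    · exact Or.inr (hQ _ _ k hu')
  rcases h t u hR m hm with k | k | ⟨n, hn, kL, kR⟩
  · exact Or.inl ⟨k.1, key _ _ hu k.2⟩
  · exact Or.inr ⟨k.1, key _ _ hu k.2⟩
  · rcases hu.step n hn with k | k
    · exact Or.inl ⟨(kL k.1).1, key _ _ k.2 (kL k.1).2⟩
    · exact Or.inr ⟨(kR k.1).1, key _ _ k.2 (kR k.1).2⟩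

theorem sound_false : Sound (fun _ _ => False) := fun _ _ h => h.elim

theorem Sound.or {R Q : St → St → Prop} (hR : Sound R) (hQ : Sound Q) :
    Sound (fun s v => R s v ∨ Q s v) := by
  rintro s v (h | h)
  · exact hR s v h
  · exact hQ s v h

/-! ### domination -/

/-- nested pair: more slack and less need than the virtual pair -/
def DL (f c sF sA vf vc vF vA : ℕ) : Prop :=
  vF ≤ sF ∧ vA ≤ sA ∧ f + vF ≤ vf + sF ∧ f + c + vA ≤ vf + vc + sA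

/-- single set: more slack and less need -/
def DR (x sX vx vX : ℕ) : Prop := vX ≤ sX ∧ x + vX ≤ vx + sX

def Dom (s v : St) : Prop :=
  DL s.f s.c s.sF s.sA v.f v.c v.sF v.sA ∧ DL s.g s.e s.sG s.sW v.g v.e v.sG v.sW ∧
    DR s.x s.sX v.x v.sX ∧ DR s.y s.sY v.y v.sY

theorem DL.step {f c sF sA vf vc vF vA mf mc : ℕ} (h : DL f c sF sA vf vc vF vA)
    (h1 : mf + mc ≤ 1) (h2 : mf ≤ f) (h3 : mc ≤ c) :
    ∃ nf nc, nf + nc ≤ mf + mc ∧ nf ≤ vf ∧ nc ≤ vc ∧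
      DL (f - mf) (c - mc) sF sA (vf - nf) (vc - nc) vF vA ∧
      DL (f - mf) (c - mc) sF sA vf vc vF vA ∧
      (nf ≤ vF → nf + nc ≤ vA → mf ≤ sF ∧ mf + mc ≤ sA ∧
        DL (f - mf) (c - mc) (sF - mf) (sA - (mf + mc)) (vf - nf) (vc - nc) (vF - nf)
          (vA - (nf + nc))) := by
  unfold DL at *
  by_cases k1 : mf + mc = 0
  · exact ⟨0, 0, by omega⟩
  by_cases k2 : (mf = 1 ∧ 0 < vf) ∨ (mc = 1 ∧ vc = 0 ∧ 0 < vf ∧ f + vF < vf + sF)
  · exact ⟨1, 0, by omega⟩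
  by_cases k3 : 0 < vc
  · exact ⟨0, 1, by omega⟩
  · exact ⟨0, 0, by omega⟩

theorem DR.step {x sX vx vX mx : ℕ} (h : DR x sX vx vX) (h1 : mx ≤ 1) (h2 : mx ≤ x) :
    ∃ nx, nx ≤ mx ∧ nx ≤ vx ∧ DR (x - mx) sX (vx - nx) vX ∧ DR (x - mx) sX vx vX ∧
      (nx ≤ vX → mx ≤ sX ∧ DR (x - mx) (sX - mx) (vx - nx) (vX - nx)) := by
  unfold DR at *
  by_cases k : mx ≤ vx
  · exact ⟨mx, by omega⟩
  · exact ⟨0, by omega⟩

theorem sound_dom : Sound Dom := by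
  refine sound_of_sim Dom _ sound_false ?_
  rintro s v ⟨hA, hW, hX, hY⟩ m ⟨⟨m1, m2, m3, m4, m5, m6, m7, m8, m9, m10⟩, -, -⟩
  obtain ⟨nf, nc, a1, a2, a3, a4, a5, a6⟩ := hA.step m1 m5 m6
  obtain ⟨ng, ne, w1, w2, w3, w4, w5, w6⟩ := hW.step m2 m7 m8
  obtain ⟨nx, x1, x2, x3, x4, x5⟩ := hX.step m3 m9
  obtain ⟨ny, y1, y2, y3, y4, y5⟩ := hY.step m4 m10
  by_cases k1 : nx + ny = 0
  · obtain rfl : nx = 0 := by omega
    obtain rfl : ny = 0 := by omega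
    have x6 := x5 (Nat.zero_le _)
    have y6 := y5 (Nat.zero_le _)
    exact Or.inl ⟨⟨x6.1, y6.1⟩, Or.inl ⟨a5, w5, x6.2, y6.2⟩⟩
  by_cases k2 : nf + nc + ng + ne = 0
  · obtain rfl : nf = 0 := by omega
    obtain rfl : nc = 0 := by omega
    obtain rfl : ng = 0 := by omega
    obtain rfl : ne = 0 := by omega
    have a7 := a6 (Nat.zero_le _) (Nat.zero_le _)
    have w7 := w6 (Nat.zero_le _) (Nat.zero_le _)
    exact Or.inr (Or.inl ⟨⟨a7.1, a7.2.1, w7.1, w7.2.1⟩, Or.inl ⟨a7.2.2, w7.2.2, x4, y4⟩⟩)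
  refine Or.inr (Or.inr ⟨⟨nf, nc, ng, ne, nx, ny⟩, ⟨⟨?_, ?_, ?_, ?_, a2, a3, w2, w3, x2, y2⟩,
    ?_, ?_⟩, ?_, ?_⟩)
  iterate 6 (dsimp only; omega)
  · rintro ⟨k3, k4⟩
    exact ⟨⟨(x5 k3).1, (y5 k4).1⟩, Or.inl ⟨a4, w4, (x5 k3).2, (y5 k4).2⟩⟩
  · rintro ⟨k3, k4, k5, k6⟩
    have a7 := a6 k3 k4
    have w7 := w6 k5 k6
    exact ⟨⟨a7.1, a7.2.1, w7.1, w7.2.1⟩, Or.inl ⟨a7.2.2, w7.2.2, x3, y3⟩⟩

theorem LW.mono {s v : St} (H : LW v) (h : Dom s v) : LW s := sound_dom s v h H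

/-- one-sided coins can be answered too -/
theorem LW.step' {s : St} (H : LW s) (m : Coin) (hm : m.fits s) :
    (s.canL m ∧ LW (s.goL m)) ∨ (s.canR m ∧ LW (s.goR m)) := by
  by_cases k1 : m.x + m.y = 0
  · refine Or.inl ⟨?_, H.mono ?_⟩
    · unfold St.canL; omega
    · simp only [Dom, DL, DR, St.goL]; omega
  by_cases k2 : m.f + m.c + m.g + m.e = 0
  · refine Or.inr ⟨?_, H.mono ?_⟩
    · unfold St.canR; omega
    · simp only [Dom, DL, DR, St.goR]; omega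
  exact H.step m ⟨hm, by omega, by omega⟩

/-! ### symmetries -/

def St.swapL (s : St) : St :=
  ⟨s.g, s.e, s.f, s.c, s.x, s.y, s.sG, s.sW, s.sF, s.sA, s.sX, s.sY⟩

def St.swapR (s : St) : St :=
  ⟨s.f, s.c, s.g, s.e, s.y, s.x, s.sF, s.sA, s.sG, s.sW, s.sY, s.sX⟩

theorem LW.swapL {s : St} (H : LW s) : LW s.swapL := by
  refine LW.coind (fun t => LW t.swapL) ?_ H
  intro t ht m hm
  rcases ht.step ⟨m.g, m.e, m.f, m.c, m.x, m.y⟩
    (by simp only [Coin.ok, Coin.fits, St.swapL] at hm ⊢; omega) with k | k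
  · exact Or.inl ⟨k.1, Or.inl k.2⟩
  · exact Or.inr ⟨⟨k.1.2.2.1, k.1.2.2.2, k.1.1, k.1.2.1⟩, Or.inl k.2⟩

theorem LW.swapR {s : St} (H : LW s) : LW s.swapR := by
  refine LW.coind (fun t => LW t.swapR) ?_ H
  intro t ht m hm
  rcases ht.step ⟨m.f, m.c, m.g, m.e, m.y, m.x⟩
    (by simp only [Coin.ok, Coin.fits, St.swapR] at hm ⊢; omega) with k | k
  · exact Or.inl ⟨⟨k.1.2, k.1.1⟩, Or.inl k.2⟩
  · exact Or.inr ⟨k.1, Or.inl k.2⟩

/-! ### the statements -/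

/-- the tight flat: `|F| = 2i+1`, `|G| = 2j`, all other sets of size `|F| + |G|` -/
def gam (i j : ℕ) : St :=
  ⟨2 * i + 1, 2 * j, 2 * j, 2 * i + 1, 2 * i + 2 * j + 1, 2 * i + 2 * j + 1,
    i, i + j + 1, j, i + j + 1, i + j + 1, i + j + 1⟩

def GammaStmt : Prop := ∀ i j, LW (gam i j)

/-- start of a piece with an even number of steps, `a = 2b + e` -/
def startE (b e l l' β : ℕ) : St :=
  ⟨b + e - l', b + l', b, b + e, 2 * b + e, 2 * b + e, β, b + e, β, b + e, b + e - l, b + e⟩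

/-- start of a piece with an odd number of steps -/
def startO (b e l l' β : ℕ) : St :=
  ⟨b + l', b + e - l', b + e, b, 2 * b + e, 2 * b + e, β + l', b + e, β + e, b + e, b + e - l, b + e⟩

def EvenStmt : Prop :=
  ∀ b e l l' β, e ≤ b → l < e → l' < e → e ≤ β → b + l ≤ 2 * β + l' → LW (startE b e l l' β)

def OddStmt : Prop :=
  ∀ b e l l' β, e ≤ b → l < e → l' < e → e ≤ β → b + l ≤ 2 * β + e + l' → LW (startO b e l l' β)

end Pool.Agent.MP_242484_co.On
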