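import Pool.Agent.MP_242484_co.on.Singles

/-!
The odd starts follow from the tight flat. Two simulations: in the first one the real state has
extra needs on the left and extra slack on the right, in the second one extra slack on the left
and extra needs on the right.
-/

set_option autoImplicit false

namespace Pool.Agent.MP_242484_co.On

/-! ### extra needs on `F` and `G` -/

/-- the three clauses at `X` -/
def CX (hp hq x vx vf vg : ℕ) : Prop :=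
  (hp + hq + vx ≤ x ∨ vx ≤ vf + vg) ∧ (hp + vx ≤ x ∨ vx ≤ vf) ∧ (hq + vx ≤ x ∨ vx ≤ vg)

theorem CX.take {hp hq x vx vf vg mf mg mx : ℕ} (h : CX hp hq x vx vf vg) (h1 : vx ≤ x)
    (h2 : mx ≤ 1) (h3 : mx ≤ x) (h4 : mf ≤ 1) (h5 : mg ≤ 1) (h6 : mf ≤ vf + hp)
    (h7 : mg ≤ vg + hq)
    (k : (mx = 0 ∨ vx = 0) ∨ (mf = 1 ∧ vf = 0) ∨ (mg = 1 ∧ vg = 0) ∨
      (mf = 1 ∧ mg = 1 ∧ x < hp + hq + vx ∧ vx = vf + vg)) :
    vx + mx ≤ x ∧ CX (hp - mf) (hq - mg) (x - mx) vx vf vg := by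
  unfold CX at *
  omega

theorem CX.pass {hp hq x vx vf vg mf mg mx : ℕ} (h : CX hp hq x vx vf vg) (h1 : vx ≤ x)
    (h2 : mx ≤ 1) (h3 : mx ≤ x) (h4 : mf ≤ 1) (h5 : mg ≤ 1) (h6 : mf ≤ vf) (h7 : mg ≤ vg)
    (k1 : ¬ ((mx = 0 ∨ vx = 0) ∧ ((mf = 1 ∧ 0 < hp) ∨ (mg = 1 ∧ 0 < hq))))
    (k2 : ¬ (mf = 1 ∧ mg = 1 ∧ x < hp + hq + vx ∧ vx = vf + vg)) :
    CX hp hq (x - mx) (vx - min mx vx) (vf - mf) (vg - mg) := by
  unfold CX at *
  omega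

theorem right_pass {x sX vx vX mx : ℕ} (h1 : vx ≤ x) (h2 : vX + x ≤ sX + vx) (h3 : mx ≤ 1)
    (h4 : mx ≤ x) : vx - min mx vx ≤ x - mx ∧ vX + (x - mx) ≤ sX + (vx - min mx vx) ∧
      (min mx vx ≤ vX → mx ≤ sX ∧ vX - min mx vx + (x - mx) ≤ sX - mx + (vx - min mx vx)) := by
  omega

def SL (s v : St) : Prop :=
  ∃ hp hq : ℕ, s.f ≤ v.f + hp ∧ s.g ≤ v.g + hq ∧ s.c ≤ v.c ∧ s.e ≤ v.e ∧
    v.sF ≤ s.sF ∧ v.sA ≤ s.sA ∧ v.sG ≤ s.sG ∧ v.sW ≤ s.sW ∧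
    v.x ≤ s.x ∧ v.sX + s.x ≤ s.sX + v.x ∧ v.y ≤ s.y ∧ v.sY + s.y ≤ s.sY + v.y ∧
    CX hp hq s.x v.x v.f v.g ∧ (hp + hq + v.y ≤ s.y ∨ v.y = 0)

theorem sound_SL : Sound SL := by
  refine sound_of_sim SL _ sound_false ?_
  rintro s v ⟨hp, hq, h1, h2, h3, h4, h5, h6, h7, h8, h9, h10, h11, h12, h13, h16⟩ m
    ⟨⟨m1, m2, m3, m4, m5, m6, m7, m8, m9, m10⟩, m11, m12⟩
  by_cases k : ((m.x = 0 ∨ v.x = 0) ∧ (m.y = 0 ∨ v.y = 0)) ∨
      ((m.x = 0 ∨ v.x = 0) ∧ ((m.f = 1 ∧ 0 < hp) ∨ (m.g = 1 ∧ 0 < hq))) ∨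
      (m.f = 1 ∧ v.f = 0) ∨ (m.g = 1 ∧ v.g = 0) ∨
      (m.f = 1 ∧ m.g = 1 ∧ s.x < hp + hq + v.x ∧ v.x = v.f + v.g)
  · have t := h13.take (mf := m.f) (mg := m.g) h9 m3 m9 (by omega) (by omega) (by omega)
      (by omega) (by omega)
    have t1 := t.1
    have dec : (m.y = 0 ∨ v.y = 0) ∨ hp - m.f + (hq - m.g) + 1 ≤ hp + hq := by
      obtain ⟨-, c1, c2⟩ := h13
      clear t t1 h3 h4 h5 h6 h7 h8 h10 h11 h12 h16 m6 m8 m11 m12
      omega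
    have ty : v.y + m.y ≤ s.y ∧ (hp - m.f + (hq - m.g) + v.y ≤ s.y - m.y ∨ v.y = 0) := by
      clear t t1 h3 h4 h5 h6 h7 h8 h9 h10 h12 h13 m3 m6 m8 m9 m11 m12 k
      omega
    have ty1 := ty.1
    clear k h16 dec
    refine Or.inl ⟨⟨by omega, by omega⟩, Or.inl ⟨hp - m.f, hq - m.g, ?_, ?_, ?_, ?_, h5, h6, h7, h8,
      ?_, ?_, ?_, ?_, t.2, ty.2⟩⟩
    all_goals (clear t ty; simp only [St.goL]; omega)
  simp only [not_or] at k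
  obtain ⟨k1, k2, k3, k4, k5⟩ := k
  have f1 : m.f ≤ v.f := by clear k1 k2 k4 k5 h16; omega
  have g1 : m.g ≤ v.g := by clear k1 k2 k3 k5 h16; omega
  have t := h13.pass h9 m3 m9 (by omega) (by omega) f1 g1 k2 k5
  have ty : hp + hq + (v.y - min m.y v.y) ≤ s.y - m.y ∨ v.y - min m.y v.y = 0 := by
    clear k1 k2 k3 k4 k5
    omega
  have k6 : 1 ≤ min m.x v.x + min m.y v.y := by clear k2 k3 k4 k5 h16 ty; omega
  obtain ⟨x1, x2, x3⟩ := right_pass h9 h10 m3 m9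
  obtain ⟨y1, y2, y3⟩ := right_pass h11 h12 m4 m10
  clear k1 k2 k3 k4 k5 h16 h13
  refine Or.inr (Or.inr ⟨⟨m.f, m.c, m.g, m.e, min m.x v.x, min m.y v.y⟩,
    ⟨⟨m1, m2, le_trans (min_le_left _ _) m3, le_trans (min_le_left _ _) m4, f1, le_trans m6 h3, g1,
      le_trans m8 h4, min_le_right _ _, min_le_right _ _⟩, m11, k6⟩, ?_, ?_⟩)
  · rintro ⟨c1, c2⟩
    refine ⟨⟨(x3 c1).1, (y3 c2).1⟩, Or.inl ⟨hp, hq, ?_, ?_, ?_, ?_, h5, h6, h7, h8,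
      x1, (x3 c1).2, y1, (y3 c2).2, t, ty⟩⟩
    all_goals (clear c1 c2 x1 x2 x3 y1 y2 y3 ty k6 t; simp only [St.goL]; omega)
  · rintro ⟨c1, c2, c3, c4⟩
    dsimp only at c1 c2 c3 c4
    refine ⟨⟨le_trans c1 h5, le_trans c2 h6, le_trans c3 h7, le_trans c4 h8⟩,
      Or.inl ⟨hp, hq, ?_, ?_, ?_, ?_, ?_, ?_, ?_, ?_, x1, x2, y1, y2, t, ty⟩⟩
    all_goals (clear x1 x2 x3 y1 y2 y3 ty k6 t; simp only [St.goR]; omega)

/-! ### extra needs on `X` and `Y` -/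

/-- nested pair with spare slack: `k` on the inner set and `K` on the outer set, unless the
virtual part is used up -/
def LP (f c sF sA vf vc vF vA k K : ℕ) : Prop :=
  vf ≤ f ∧ vf + vc ≤ f + c ∧ vF + f ≤ sF + vf ∧ vA + (f + c) ≤ sA + (vf + vc) ∧
    (vf = 0 ∨ vf + k ≤ f) ∧ (vc = 0 ∨ vf + vc + K ≤ f + c)

theorem LP.take {f c sF sA vf vc vF vA k K mf mc : ℕ} (h : LP f c sF sA vf vc vF vA k K)
    (h1 : mf + mc ≤ 1) (h2 : mf ≤ f) (h3 : mc ≤ c) (k' K' : ℕ)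
    (h4 : vf = 0 ∨ k' + mf ≤ k) (h5 : vc = 0 ∨ K' + (mf + mc) ≤ K) :
    mf ≤ sF ∧ mf + mc ≤ sA ∧
      LP (f - mf) (c - mc) (sF - mf) (sA - (mf + mc)) vf vc vF vA k' K' := by
  unfold LP at *
  omega

theorem LP.proj {f c sF sA vf vc vF vA k K mf mc : ℕ} (h : LP f c sF sA vf vc vF vA k K)
    (h1 : mf + mc ≤ 1) (h2 : mf ≤ f) (h3 : mc ≤ c) :
    ∃ nf nc, nf + nc ≤ 1 ∧ nf ≤ vf ∧ nc ≤ vc ∧ (nf = 0 → mf = 0 ∨ vf = 0) ∧
      (nf + nc = 0 → mf + mc = 0 ∨ vc = 0) ∧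
      LP (f - mf) (c - mc) sF sA (vf - nf) (vc - nc) vF vA k K ∧
      (nf ≤ vF → nf + nc ≤ vA → mf ≤ sF ∧ mf + mc ≤ sA ∧
        LP (f - mf) (c - mc) (sF - mf) (sA - (mf + mc)) (vf - nf) (vc - nc) (vF - nf)
          (vA - (nf + nc)) k K) := by
  unfold LP at *
  by_cases k1 : mf = 1 ∧ 0 < vf
  · exact ⟨1, 0, by omega⟩
  by_cases k2 : mf + mc = 1 ∧ 0 < vc
  · exact ⟨0, 1, by omega⟩
  · exact ⟨0, 0, by omega⟩

/-- the virtual `X` is used up and the virtual `Y` covers the virtual left sets -/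
def SZ (s v : St) : Prop :=
  ∃ k, LP s.f s.c s.sF s.sA v.f v.c v.sF v.sA k k ∧ LP s.g s.e s.sG s.sW v.g v.e v.sG v.sW k k ∧
    v.sY ≤ s.sY ∧ s.x ≤ k ∧ v.f + v.c + v.g + v.e ≤ v.y

theorem sound_SZ : Sound SZ := by
  refine sound_of_sim SZ _ sound_false ?_
  rintro s v ⟨k, hA, hW, h1, h2, h3⟩ m ⟨⟨m1, m2, m3, m4, m5, m6, m7, m8, m9, m10⟩, m11, m12⟩
  by_cases k1 : m.x = 1
  · have a := hA.take m1 m5 m6 (k - 1) (k - 1) (by omega) (by omega)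
    have w := hW.take m2 m7 m8 (k - 1) (k - 1) (by omega) (by omega)
    exact Or.inr (Or.inl ⟨⟨a.1, a.2.1, w.1, w.2.1⟩,
      Or.inl ⟨k - 1, a.2.2, w.2.2, h1, by simp only [St.goR]; omega, h3⟩⟩)
  obtain ⟨nf, nc, a1, a2, a3, a4, a5, a6, a7⟩ := hA.proj m1 m5 m6
  obtain ⟨ng, ne, w1, w2, w3, w4, w5, w6, w7⟩ := hW.proj m2 m7 m8
  by_cases k2 : nf + nc + ng + ne = 0
  · have a := hA.take m1 m5 m6 k k (by omega) (by omega)
    have w := hW.take m2 m7 m8 k k (by omega) (by omega)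
    exact Or.inr (Or.inl ⟨⟨a.1, a.2.1, w.1, w.2.1⟩,
      Or.inl ⟨k, a.2.2, w.2.2, h1, by simp only [St.goR]; omega, h3⟩⟩)
  refine Or.inr (Or.inr ⟨⟨nf, nc, ng, ne, 0, 1⟩, ?_, ?_, ?_⟩)
  · simp only [Coin.ok, Coin.fits]
    omega
  · rintro ⟨c1, c2⟩
    dsimp only at c1 c2
    refine ⟨⟨by omega, by omega⟩, Or.inl ⟨k, a6, w6, ?_⟩⟩
    simp only [St.goL]
    omega
  · rintro ⟨c1, c2, c3, c4⟩
    have a := a7 c1 c2
    have w := w7 c3 c4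
    refine ⟨⟨a.1, a.2.1, w.1, w.2.1⟩, Or.inl ⟨k, a.2.2, w.2.2, ?_⟩⟩
    simp only [St.goR]
    omega

theorem sound_SZ' : Sound (fun s v => SZ s.swapR v.swapR) :=
  fun _ _ h H => (sound_SZ _ _ h H.swapR).swapR

/-- `k` joint units, `ex` units for `X` alone and `ey` units for `Y` alone -/
def SR (s v : St) : Prop :=
  ∃ k ex ey, LP s.f s.c s.sF s.sA v.f v.c v.sF v.sA k (k + ex + ey) ∧
    LP s.g s.e s.sG s.sW v.g v.e v.sG v.sW k (k + ex + ey) ∧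
    v.sX ≤ s.sX ∧ v.sY ≤ s.sY ∧ s.x ≤ v.x + k + ex ∧ s.y ≤ v.y + k + ey ∧
    (ex = 0 ∨ v.f + v.g ≤ v.x) ∧ (ey = 0 ∨ v.f + v.g ≤ v.y) ∧
    (k = 0 ∨ v.f + v.c + v.g + v.e ≤ v.x + v.y)

theorem sound_SR : Sound SR := by
  refine sound_of_sim SR _ (sound_SZ.or sound_SZ') ?_
  rintro s v ⟨k, ex, ey, hA, hW, h1, h2, h3, h4, h5, h6, h7⟩ m
    ⟨⟨m1, m2, m3, m4, m5, m6, m7, m8, m9, m10⟩, m11, m12⟩
  have take : ∀ k' ex' ey', (v.f = 0 ∨ k' + m.f ≤ k) → (v.g = 0 ∨ k' + m.g ≤ k) →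
      (v.c = 0 ∨ k' + ex' + ey' + (m.f + m.c) ≤ k + ex + ey) →
      (v.e = 0 ∨ k' + ex' + ey' + (m.g + m.e) ≤ k + ex + ey) →
      s.x - m.x ≤ v.x + k' + ex' → s.y - m.y ≤ v.y + k' + ey' → ex' ≤ ex → ey' ≤ ey → k' ≤ k →
      s.canR m ∧ (SR (s.goR m) v ∨ SZ (s.goR m) v ∨ SZ (s.goR m).swapR v.swapR) := by
    intro k' ex' ey' p1 p2 p3 p4 p5 p6 p7 p8 p9
    have a := hA.take m1 m5 m6 k' (k' + ex' + ey') p1 p3
    have w := hW.take m2 m7 m8 k' (k' + ex' + ey') p2 p4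
    exact ⟨⟨a.1, a.2.1, w.1, w.2.1⟩, Or.inl ⟨k', ex', ey', a.2.2, w.2.2, h1, h2, p5, p6,
      h5.imp_left (fun h : ex = 0 => Nat.le_zero.1 (h ▸ p7)),
      h6.imp_left (fun h : ey = 0 => Nat.le_zero.1 (h ▸ p8)),
      h7.imp_left (fun h : k = 0 => Nat.le_zero.1 (h ▸ p9))⟩⟩
  by_cases k2 : m.x = 1 ∧ m.y = 1 ∧ 0 < k
  · clear h5 h6 h7
    exact Or.inr (Or.inl (take (k - 1) ex ey (Or.inr (by omega)) (Or.inr (by omega))
      (Or.inr (by omega)) (Or.inr (by omega)) (by omega) (by omega) le_rfl le_rfl (by omega)))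
  obtain ⟨nf, nc, a1, a2, a3, a4, a5, a6⟩ := hA.proj m1 m5 m6
  obtain ⟨ng, ne, w1, w2, w3, w4, w5, w6⟩ := hW.proj m2 m7 m8
  by_cases k1 : nf + nc + ng + ne = 0
  · clear h5 h6 h7 a6 w6 k2
    have a7 := a4 (by omega)
    have a8 := a5 (by omega)
    have w7 := w4 (by omega)
    have w8 := w5 (by omega)
    clear a4 a5 w4 w5
    exact Or.inr (Or.inl (take k ex ey (by omega) (by omega) (by omega) (by omega)
      (by omega) (by omega) le_rfl le_rfl le_rfl))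
  clear a5 w5
  by_cases k3 : m.x = 1 ∧ 0 < ex ∧ nf + ng = 0
  · clear h5 h6 h7 a6 w6 k2 k1
    have a7 := a4 (by omega)
    have w7 := w4 (by omega)
    clear a4 w4
    exact Or.inr (Or.inl (take k (ex - 1) ey (by omega) (by omega) (Or.inr (by omega))
      (Or.inr (by omega)) (by omega) (by omega) (by omega) le_rfl le_rfl))
  by_cases k4 : m.y = 1 ∧ 0 < ey ∧ nf + ng = 0
  · clear h5 h6 h7 a6 w6 k2 k1 k3
    have a7 := a4 (by omega)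
    have w7 := w4 (by omega)
    clear a4 w4
    exact Or.inr (Or.inl (take k ex (ey - 1) (by omega) (by omega) (Or.inr (by omega))
      (Or.inr (by omega)) (by omega) (by omega) le_rfl (by omega) le_rfl))
  clear take a4 w4
  by_cases k5 : (m.x = 1 ∧ v.x = 0) ∨ (m.y = 1 ∧ v.y = 0)
  · clear a6 w6
    have k0 : 0 < k := by omega
    have a := hA.take m1 m5 m6 (k - 1) (k - 1) (Or.inr (by omega)) (Or.inr (by omega))
    have w := hW.take m2 m7 m8 (k - 1) (k - 1) (Or.inr (by omega)) (Or.inr (by omega))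
    refine Or.inr (Or.inl ⟨⟨a.1, a.2.1, w.1, w.2.1⟩, Or.inr ?_⟩)
    rcases k5 with k5 | k5
    · refine Or.inl ⟨k - 1, a.2.2, w.2.2, h2, ?_⟩
      clear a w
      simp only [St.goR]
      omega
    · refine Or.inr ⟨k - 1, a.2.2, w.2.2, h1, ?_⟩
      clear a w
      simp only [St.goR, St.swapR]
      omega
  have p1 : m.x ≤ v.x := by clear a6 w6 h5 h6 h7 k2 k3 k4; omega
  have p2 : m.y ≤ v.y := by clear a6 w6 h5 h6 h7 k2 k3 k4; omega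
  have q1 : s.x - m.x ≤ v.x - m.x + k + ex := by clear a6 w6 h5 h6 h7 k2 k3 k4 k5; omega
  have q2 : s.y - m.y ≤ v.y - m.y + k + ey := by clear a6 w6 h5 h6 h7 k2 k3 k4 k5; omega
  have q3 : ex = 0 ∨ v.f - nf + (v.g - ng) ≤ v.x - m.x := by clear a6 w6 h6 h7 k2 k4 k5; omega
  have q4 : ey = 0 ∨ v.f - nf + (v.g - ng) ≤ v.y - m.y := by clear a6 w6 h5 h7 k2 k3 k5 q3; omega
  have q5 : k = 0 ∨ v.f - nf + (v.c - nc) + (v.g - ng) + (v.e - ne) ≤ v.x - m.x + (v.y - m.y) := by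
    clear a6 w6 h5 h6 k3 k4 k5 q3 q4; omega
  refine Or.inr (Or.inr ⟨⟨nf, nc, ng, ne, m.x, m.y⟩,
    ⟨⟨a1, w1, m3, m4, a2, a3, w2, w3, p1, p2⟩, Nat.pos_of_ne_zero k1, m12⟩, ?_, ?_⟩)
  · rintro ⟨c1, c2⟩
    exact ⟨⟨le_trans c1 h1, le_trans c2 h2⟩, Or.inl ⟨k, ex, ey, a6.1, w6.1,
      Nat.sub_le_sub_right h1 _, Nat.sub_le_sub_right h2 _, q1, q2, q3, q4, q5⟩⟩
  · rintro ⟨c1, c2, c3, c4⟩
    have a := a6.2 c1 c2
    have w := w6.2 c3 c4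
    exact ⟨⟨a.1, a.2.1, w.1, w.2.1⟩, Or.inl ⟨k, ex, ey, a.2.2, w.2.2, h1, h2, q1, q2, q3, q4, q5⟩⟩

/-! ### the odd starts -/

theorem odd_tight (hG : GammaStmt) {b e l l' β : ℕ} (h2 : l < e) (h3 : l' < e)
    (h4 : b + l = 2 * β + e + l') : LW (startO b e l l' β) := by
  obtain ⟨d, u, r, hd, hu, hr⟩ : ∃ d u r, l + d = l' + u ∧ (d = 0 ∨ u = 0) ∧ l + d + r + 1 = e :=
    ⟨l' - l, l - l', e - 1 - max l l', by omega⟩
  obtain ⟨j, hj⟩ : ∃ j, j = β + r + 1 := ⟨_, rfl⟩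
  have H1 : LW ⟨2 * β + 1 + l', 2 * j + l + 2 * d, 2 * j + l + d, 2 * β + 1 + l' + d,
      2 * β + 2 * j + 1 + l' + l + d, 2 * β + 2 * j + 1 + l' + d,
      β + l', β + j + 1 + l' + l + 2 * d, j + l + d, β + j + 1 + l' + l + 2 * d,
      β + j + 1, β + j + 1⟩ := by
    refine sound_SR _ _ ⟨l', l + d, d, ?_⟩ (hG β j)
    simp only [LP, gam]
    omega
  have H2 : LW ⟨2 * β + 1 + 2 * l' + r, 2 * j + l + 2 * d, 2 * j + l + d + l', 2 * β + 1 + l' + d,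
      2 * β + 2 * j + 1 + 2 * l' + l + d + r, 2 * β + 2 * j + 1 + 3 * l' + d + r,
      β + l', β + j + 1 + l' + l + 2 * d, j + l + d, β + j + 1 + l' + l + 2 * d,
      β + j + 1 + l' + r, β + j + 1 + 2 * l' + r⟩ := by
    refine sound_SL _ _ ⟨l' + r, l', ?_⟩ H1
    simp only [CX]
    omega
  have H3 : LW ⟨2 * β + 1 + 2 * l' + r + d, 2 * j + l + 2 * d, 2 * j + l + 2 * d + l',
      2 * β + 1 + l' + d,
      2 * β + 2 * j + 1 + 3 * l' + 2 * d + r, 2 * β + 2 * j + 1 + 2 * l' + l + 3 * d + r,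
      β + l', β + j + 1 + l' + l + 2 * d, j + l + d, β + j + 1 + l' + l + 2 * d,
      β + j + 1 + 2 * l' + r + d, β + j + 1 + l' + r + 2 * d⟩ := by
    refine sound_SL _ _ ⟨d, d, ?_⟩ H2.swapR
    simp only [St.swapR, CX]
    omega
  refine H3.swapR.mono ?_
  simp only [Dom, DL, DR, startO, St.swapR]
  omega

theorem odd_of_gamma (hG : GammaStmt) : OddStmt := by
  intro b e l l' β h1 h2 h3 _ h5
  by_cases k0 : b + l < e + l'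
  · refine (odd_tight hG (b := b) (l' := b + l - e) (β := 0) h2 (by omega) (by omega)).mono ?_
    simp only [Dom, DL, DR, startO]; omega
  by_cases k : (b + l + e + l') % 2 = 0
  · refine (odd_tight hG (b := b) (β := (b + l - e - l') / 2) h2 h3 (by omega)).mono ?_
    simp only [Dom, DL, DR, startO]; omega
  by_cases k2 : 0 < l'
  · refine (odd_tight hG (b := b) (l' := l' - 1) (β := (b + l + 1 - e - l') / 2) h2 (by omega)
      (by omega)).mono ?_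
    simp only [Dom, DL, DR, startO]; omega
  by_cases k3 : l + 1 < e
  · refine (odd_tight hG (b := b) (l := l + 1) (β := (b + l + 1 - e - l') / 2) k3 h3
      (by omega)).mono ?_
    simp only [Dom, DL, DR, startO]; omega
  refine (hG (b / 2) (b / 2)).swapL.rxg (e - 1) ?_ ?_
  · simp only [startO]; omega
  · simp only [Off, O1, startO, gam, St.swapL]; omega

end Pool.Agent.MP_242484_co.On
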