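import Pool.Agent.MP_242484_co.OffMain
import Pool.Agent.MP_242484_co.on.Game

/-!
From the linear game to the painting game: a junction with one leaf on each side.
-/

set_option autoImplicit false

namespace Pool.Agent.MP_242484_co.On

open Finset

/-- a vertex with a leaf, simulated by a nested pair of the linear game -/
def Side (ga ha gl hl f c sF sA : ℕ) : Prop :=
  hl ≤ gl ∧ ha + sF + hl ≤ f + gl ∧ (f = 0 ∨ (sF + hl + ha ≤ ga ∧ gl ≤ c)) ∧
    ((sA + ha ≤ ga ∧ ha + sA ≤ f + c) ∨ gl = hl)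

theorem Side.step {ga ha gl hl f c sF sA ma ml : ℕ} (S : Side ga ha gl hl f c sF sA)
    (h1 : ma ≤ 1) (h2 : ml ≤ 1) (h3 : ma ≤ ha) (h4 : ml ≤ hl) :
    ∃ mf mc ia il, mf + mc = ma ∧ mf ≤ f ∧ mc ≤ c ∧ ia ≤ ma ∧ il ≤ ml ∧ ia + il ≤ 1 ∧
      Side (ga - ma) (ha - ia) (gl - ml) (hl - il) (f - mf) (c - mc) sF sA ∧
      (mf ≤ sF → mf + mc ≤ sA →
        Side (ga - ma) (ha - 0) (gl - ml) (hl - ml) (f - mf) (c - mc) (sF - mf)
          (sA - (mf + mc))) := by
  unfold Side at *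
  by_cases k1 : ma = 0
  · exact ⟨0, 0, 0, ml, by omega⟩
  by_cases k2 : ml = 0
  · by_cases k3 : f = 0
    · exact ⟨0, 1, 1, 0, by omega⟩
    · exact ⟨1, 0, 1, 0, by omega⟩
  by_cases k3 : gl = hl
  · exact ⟨0, 1, 0, 1, by omega⟩
  · exact ⟨0, 1, 1, 0, by omega⟩

section

variable {V : Type} [DecidableEq V]

/-- indicator -/
def ind (M : Finset V) (z : V) : ℕ := if z ∈ M then 1 else 0

theorem dec_eq (f : V → ℕ) (M : Finset V) (z : V) : dec f M z = f z - ind M z := by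
  unfold dec ind; split_ifs <;> rfl

theorem ind_le (M : Finset V) (z : V) : ind M z ≤ 1 := by
  unfold ind; split_ifs <;> omega

theorem ind_le_of {M : Finset V} {h : V → ℕ} (hM : ∀ v ∈ M, 0 < h v) (z : V) : ind M z ≤ h z := by
  unfold ind; split_ifs with hz
  · exact hM z hz
  · omega

theorem mem_of_ind {M : Finset V} {z : V} (h : 1 ≤ ind M z) : z ∈ M := by
  by_contra hz
  simp [ind, hz] at h

/-- the junction graph: `inr 1`, `inr 2` are joined to `X`, `y`; `inr 0`, `inr 3` are leaves -/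
def junG (G : SimpleGraph V) (X y : V) : SimpleGraph (V ⊕ Fin 4) :=
  glue G {X, y} (Pa 5) ![0, 1, 3, 4] 2

theorem junG_indep {G : SimpleGraph V} {X y : V} {I1 : Finset V} {J : Finset (Fin 4)}
    (h1 : G.IsIndepSet (↑I1 : Set V)) (h2 : ¬ (0 ∈ J ∧ 1 ∈ J)) (h3 : ¬ (2 ∈ J ∧ 3 ∈ J))
    (h4 : 1 ∈ J ∨ 2 ∈ J → X ∉ I1 ∧ y ∉ I1) :
    (junG G X y).IsIndepSet (↑(I1.disjSum J) : Set (V ⊕ Fin 4)) := by
  have cross : ∀ u w, u ∈ I1 → w ∈ J → u ∈ ({X, y} : Finset V) →
      ¬ (Pa 5).Adj 2 ((![0, 1, 3, 4] : Fin 4 → Fin 5) w) := by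
    intro u w hu hw hB hadj
    have hw' : 1 ∈ J ∨ 2 ∈ J := by
      fin_cases w
      · exact absurd hadj (by decide)
      · exact Or.inl hw
      · exact Or.inr hw
      · exact absurd hadj (by decide)
    rcases mem_insert.1 hB with rfl | hB
    · exact (h4 hw').1 hu
    · rw [mem_singleton.1 hB] at hu
      exact (h4 hw').2 hu
  rintro (u | u) hu (v | v) hv huv hadj
  · exact h1 (by simpa using hu) (by simpa using hv) (fun e => huv (by rw [e])) hadj
  · exact cross u v (by simpa using hu) (by simpa using hv) hadj.1 hadj.2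
  · exact cross v u (by simpa using hv) (by simpa using hu) hadj.1 hadj.2
  · have hu' : u ∈ J := by simpa using hu
    have hv' : v ∈ J := by simpa using hv
    have hadj' : (Pa 5).Adj ((![0, 1, 3, 4] : Fin 4 → Fin 5) u) (![0, 1, 3, 4] v) := hadj
    fin_cases u <;> fin_cases v <;>
      first | exact absurd hadj' (by decide) | exact h2 ⟨hu', hv'⟩ | exact h2 ⟨hv', hu'⟩ |
        exact h3 ⟨hu', hv'⟩ | exact h3 ⟨hv', hu'⟩

/-- the set of indices with value one -/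
def ones (a b c d : ℕ) : Finset (Fin 4) := univ.filter (fun k => 1 ≤ (![a, b, c, d] : Fin 4 → ℕ) k)

theorem ind_ones (I1 : Finset V) {a b c d : ℕ} (ha : a ≤ 1) (hb : b ≤ 1) (hc : c ≤ 1) (hd : d ≤ 1) :
    ind (I1.disjSum (ones a b c d)) (Sum.inr 0) = a ∧
    ind (I1.disjSum (ones a b c d)) (Sum.inr 1) = b ∧
    ind (I1.disjSum (ones a b c d)) (Sum.inr 2) = c ∧
    ind (I1.disjSum (ones a b c d)) (Sum.inr 3) = d := by
  refine ⟨?_, ?_, ?_, ?_⟩ <;> simp [ind, ones] <;> split_ifs <;> omega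

/-- the invariant of the simulation -/
def PInv (G : SimpleGraph V) (X y : V) (g h : V ⊕ Fin 4 → ℕ) : Prop :=
  ∃ (g1 h1 : V → ℕ) (s : St), Win G g1 h1 ∧ LW s ∧ (∀ u, h (Sum.inl u) ≤ h1 u) ∧
    (∀ u, g1 u ≤ g (Sum.inl u)) ∧
    g1 X + s.sX ≤ g (Sum.inl X) ∧ g1 X + s.sX ≤ s.x ∧
    g1 y + s.sY ≤ g (Sum.inl y) ∧ g1 y + s.sY ≤ s.y ∧
    Side (g (Sum.inr 1)) (h (Sum.inr 1)) (g (Sum.inr 0)) (h (Sum.inr 0)) s.f s.c s.sF s.sA ∧
    Side (g (Sum.inr 2)) (h (Sum.inr 2)) (g (Sum.inr 3)) (h (Sum.inr 3)) s.g s.e s.sG s.sW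

theorem win_of_pinv {G : SimpleGraph V} {X y : V} {g h : V ⊕ Fin 4 → ℕ} (H : PInv G X y g h) :
    Win (junG G X y) g h := by
  refine ⟨PInv G X y, ?_, H⟩
  rintro g h ⟨g1, h1, s, W, L, hh, hg, x1, x2, y1, y2, SA, SW⟩
  refine ⟨?_, ?_⟩
  · rintro (u | k) hv
    · exact lt_of_lt_of_le (W.pos u (lt_of_lt_of_le hv (hh u))) (hg u)
    · unfold Side at SA SW
      fin_cases k
      · change 0 < h (Sum.inr 0) at hv
        change 0 < g (Sum.inr 0)
        omega
      · change 0 < h (Sum.inr 1) at hv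
        change 0 < g (Sum.inr 1)
        omega
      · change 0 < h (Sum.inr 2) at hv
        change 0 < g (Sum.inr 2)
        omega
      · change 0 < h (Sum.inr 3) at hv
        change 0 < g (Sum.inr 3)
        omega
  intro M hM
  have hM1 : ∀ u ∈ M.toLeft, 0 < h1 u := fun u hu =>
    lt_of_lt_of_le (hM _ (mem_toLeft.1 hu)) (hh u)
  have hpos : ∀ u, ind M (Sum.inl u) ≤ g1 u := fun u =>
    (ind_le_of hM _).trans ((hh u).trans (W.le u))
  obtain ⟨mf, mc, ia, il, a1, a2, a3, a4, a5, a6, a7, a8⟩ :=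
    SA.step (ind_le M (Sum.inr 1)) (ind_le M (Sum.inr 0)) (ind_le_of hM _) (ind_le_of hM _)
  obtain ⟨mg, me, iw, ig, w1, w2, w3, w4, w5, w6, w7, w8⟩ :=
    SW.step (ind_le M (Sum.inr 2)) (ind_le M (Sum.inr 3)) (ind_le_of hM _) (ind_le_of hM _)
  have b0 := ind_le M (Sum.inr 0)
  have b1 := ind_le M (Sum.inr 1)
  have b2 := ind_le M (Sum.inr 2)
  have b3 := ind_le M (Sum.inr 3)
  have bX := ind_le M (Sum.inl X)
  have bY := ind_le M (Sum.inl y)
  have pX := hpos X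
  have pY := hpos y
  have sub : ∀ (I1 : Finset V) (a b c d : ℕ), I1 ⊆ M.toLeft → a ≤ ind M (Sum.inr 0) →
      b ≤ ind M (Sum.inr 1) → c ≤ ind M (Sum.inr 2) → d ≤ ind M (Sum.inr 3) →
      I1.disjSum (ones a b c d) ⊆ M := by
    rintro I1 a b c d hI k0 k1 k2 k3 (u | k) hz
    · exact mem_toLeft.1 (hI (by simpa using hz))
    · have hk : 1 ≤ (![a, b, c, d] : Fin 4 → ℕ) k := by simpa [ones] using hz
      fin_cases k
      · exact mem_of_ind (le_trans hk k0)
      · exact mem_of_ind (le_trans hk k1)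
      · exact mem_of_ind (le_trans hk k2)
      · exact mem_of_ind (le_trans hk k3)
  have need : ∀ (I1 : Finset V) (J : Finset (Fin 4)) (u : V),
      dec h (I1.disjSum J) (Sum.inl u) ≤ dec h1 I1 u := by
    intro I1 J u
    have := hh u
    by_cases hu : u ∈ I1
    · rw [dec_of_mem hu, dec_of_mem (by simpa using hu)]; omega
    · rw [dec_of_not_mem hu, dec_of_not_mem (by simpa using hu)]; exact this
  rcases L.step' ⟨mf, mc, mg, me, ind M (Sum.inl X), ind M (Sum.inl y)⟩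
    (by simp only [Coin.fits]; omega) with ⟨⟨c1, c2⟩, L'⟩ | ⟨⟨c1, c2, c3, c4⟩, L'⟩
  · obtain ⟨I1, hI1, hind, W'⟩ := W.step (M.toLeft \ {X, y}) (fun u hu => hM1 u (mem_sdiff.1 hu).1)
    obtain ⟨e0, e1, e2, e3⟩ := ind_ones I1 (a := il) (b := ia) (c := iw) (d := ig) (by omega)
      (by omega) (by omega) (by omega)
    have nX : X ∉ M.toLeft \ {X, y} := by simp
    have nY : y ∉ M.toLeft \ {X, y} := by simp
    dsimp only at c1 c2
    refine ⟨I1.disjSum (ones il ia iw ig), sub _ _ _ _ _ (hI1.trans sdiff_subset) a5 a4 w4 w5,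
      junG_indep hind ?_ ?_ (fun _ => ⟨fun k => nX (hI1 k), fun k => nY (hI1 k)⟩),
      _, _, _, W', L', need _ _, ?_, ?_, ?_, ?_, ?_, ?_, ?_⟩
    · simp [ones]; omega
    · simp [ones]; omega
    · intro u
      have := hg u
      by_cases hu : u ∈ ({X, y} : Finset V)
      · rw [dec_of_not_mem (fun k => (mem_sdiff.1 k).2 hu), dec_eq]
        rcases mem_insert.1 hu with rfl | hu
        · omega
        · rw [mem_singleton.1 hu]; omega
      · by_cases hm : Sum.inl u ∈ M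
        · rw [dec_of_mem hm, dec_of_mem (mem_sdiff.2 ⟨mem_toLeft.2 hm, hu⟩)]; omega
        · rw [dec_of_not_mem hm, dec_of_not_mem (fun k => hm (mem_toLeft.1 (mem_sdiff.1 k).1))]
          exact this
    · rw [dec_of_not_mem nX, dec_eq]; simp only [St.goL]; omega
    · rw [dec_of_not_mem nX]; simp only [St.goL]; omega
    · rw [dec_of_not_mem nY, dec_eq]; simp only [St.goL]; omega
    · rw [dec_of_not_mem nY]; simp only [St.goL]; omega
    · simp only [dec_eq, e0, e1]; exact a7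
    · simp only [dec_eq, e2, e3]; exact w7
  · obtain ⟨I1, hI1, hind, W'⟩ := W.step M.toLeft hM1
    obtain ⟨e0, e1, e2, e3⟩ := ind_ones I1 (a := ind M (Sum.inr 0)) (b := 0) (c := 0)
      (d := ind M (Sum.inr 3)) b0 (by omega) (by omega) b3
    have eL : ∀ u, ind M.toLeft u = ind M (Sum.inl u) := fun u => by simp [ind]
    refine ⟨I1.disjSum (ones (ind M (Sum.inr 0)) 0 0 (ind M (Sum.inr 3))),
      sub _ _ _ _ _ hI1 le_rfl (Nat.zero_le _) (Nat.zero_le _) le_rfl,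
      junG_indep hind ?_ ?_ ?_, _, _, _, W', L', need _ _, ?_, ?_, ?_, ?_, ?_, ?_, ?_⟩
    · simp [ones]
    · simp [ones]
    · simp [ones]
    · intro u
      have := hg u
      rw [dec_eq, dec_eq, eL]; omega
    · rw [dec_eq, dec_eq, eL]; simp only [St.goR]; omega
    · rw [dec_eq, eL]; simp only [St.goR]; omega
    · rw [dec_eq, dec_eq, eL]; simp only [St.goR]; omega
    · rw [dec_eq, eL]; simp only [St.goR]; omega
    · simp only [dec_eq, e0, e1]; exact a8 c1 c2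
    · simp only [dec_eq, e2, e3]; exact w8 c3 c4

end

end Pool.Agent.MP_242484_co.On
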