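import Pool.Agent.MP_242484_co.on.Game

/-!
Reservations: the real state is a virtual winning state plus offsets. `d` is a need that is still
to be served, `p` is a spare slack.
-/

set_option autoImplicit false

namespace Pool.Agent.MP_242484_co.On

/-- offsets of the six sets -/
structure Of where
  dF : ℕ
  pF : ℕ
  dA : ℕ
  pA : ℕ
  dG : ℕ
  pG : ℕ
  dW : ℕ
  pW : ℕ
  dX : ℕ
  pX : ℕ
  dY : ℕ
  pY : ℕ

/-- real size `z`, slack `s`; virtual size `vz`, slack `vs` -/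
def O1 (z s vz vs d p : ℕ) : Prop := (vs + p ≤ s ∧ z + vs ≤ vz + s + d) ∨ z ≤ s

def Off (s v : St) (o : Of) : Prop :=
  O1 s.f s.sF v.f v.sF o.dF o.pF ∧ O1 (s.f + s.c) s.sA (v.f + v.c) v.sA o.dA o.pA ∧
  O1 s.g s.sG v.g v.sG o.dG o.pG ∧ O1 (s.g + s.e) s.sW (v.g + v.e) v.sW o.dW o.pW ∧
  O1 s.x s.sX v.x v.sX o.dX o.pX ∧ O1 s.y s.sY v.y v.sY o.dY o.pY

/-- the offsets `o` can be worked off from the real state `s` -/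
def RW (s : St) (o : Of) : Prop := ∀ v, Off s v o → LW v → LW s

/-- ways to pass a mark of a single set: need `l` after acceptance, spare `r` after rejection -/
def Pass1 (z m d p l r : ℕ) : Prop :=
  ((m = 0 ∨ d = 0 ∨ d + p < z) ∧ d ≤ l ∧ r ≤ p) ∨ (m = 1 ∧ d ≤ l + 1 ∧ r + 1 ≤ p)

/-- ways to pass a mark of a nested pair -/
def Pass2 (f c mf mc dF pF dA pA lF lA rF rA : ℕ) : Prop :=
  (mf + mc = 0 ∧ dF ≤ lF ∧ dA ≤ lA ∧ rF ≤ pF ∧ rA ≤ pA) ∨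
  (mf = 1 ∧ (dF = 0 ∨ dF + pF < f) ∧ (dA = 0 ∨ dA + pA < f + c) ∧
    dF ≤ lF ∧ dA ≤ lA ∧ rF ≤ pF ∧ rA ≤ pA) ∨
  (mf = 1 ∧ (dA = 0 ∨ dA + pA < f + c) ∧ dA + pA < c + dF + pF ∧
    dF ≤ lF + 1 ∧ dA ≤ lA ∧ rF + 1 ≤ pF ∧ rA ≤ pA) ∨
  (mf = 1 ∧ dF ≤ lF + 1 ∧ dA ≤ lA + 1 ∧ rF + 1 ≤ pF ∧ rA + 1 ≤ pA) ∨
  (mc = 1 ∧ (dA = 0 ∨ dA + pA < f + c) ∧ dA + pA < c + dF + pF ∧
    dF ≤ lF ∧ dA ≤ lA ∧ rF ≤ pF ∧ rA ≤ pA) ∨
  (mc = 1 ∧ (dA = 0 ∨ dA + pA < f + c) ∧ dF + 1 ≤ lF ∧ dA ≤ lA ∧ rF ≤ pF ∧ rA ≤ pA) ∨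
  (mc = 1 ∧ dF ≤ lF ∧ dA ≤ lA + 1 ∧ rF ≤ pF ∧ rA + 1 ≤ pA)

theorem O1.pass {z s vz vs d p m l r : ℕ} (h : O1 z s vz vs d p) (h1 : m ≤ 1) (h2 : m ≤ z)
    (hp : Pass1 z m d p l r) :
    ∃ n, n ≤ 1 ∧ n ≤ vz ∧ O1 (z - m) s (vz - n) vs l p ∧
      (n ≤ vs → m ≤ s ∧ O1 (z - m) (s - m) (vz - n) (vs - n) d r) := by
  unfold O1 Pass1 at *
  rcases hp with hp | hp
  · by_cases k : m ≤ vz ∧ s < z
    · exact ⟨m, by omega⟩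
    · exact ⟨0, by omega⟩
  · exact ⟨0, by omega⟩

theorem pass2 {f c sF sA vf vc vF vA dF pF dA pA mf mc lF lA rF rA : ℕ}
    (hF : O1 f sF vf vF dF pF) (hA : O1 (f + c) sA (vf + vc) vA dA pA) (h1 : mf + mc ≤ 1)
    (h2 : mf ≤ f) (h3 : mc ≤ c) (hp : Pass2 f c mf mc dF pF dA pA lF lA rF rA) :
    ∃ nf nc, nf + nc ≤ 1 ∧ nf ≤ vf ∧ nc ≤ vc ∧
      O1 (f - mf) sF (vf - nf) vF lF pF ∧
      O1 (f - mf + (c - mc)) sA (vf - nf + (vc - nc)) vA lA pA ∧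
      (nf ≤ vF → nf + nc ≤ vA → mf ≤ sF ∧ mf + mc ≤ sA ∧
        O1 (f - mf) (sF - mf) (vf - nf) (vF - nf) dF rF ∧
        O1 (f - mf + (c - mc)) (sA - (mf + mc)) (vf - nf + (vc - nc)) (vA - (nf + nc)) dA rA) := by
  unfold O1 at *
  rcases hp with hp | hp | hp | hp | hp | hp | hp
  · exact ⟨0, 0, by omega⟩
  · by_cases k : 0 < vf
    · exact ⟨1, 0, by omega⟩
    by_cases k : 0 < vc
    · exact ⟨0, 1, by omega⟩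
    · exact ⟨0, 0, by omega⟩
  · by_cases k : 0 < vc
    · exact ⟨0, 1, by omega⟩
    by_cases k : 0 < vf ∧ (f ≤ sF ∨ f + vF < vf + sF + dF)
    · exact ⟨1, 0, by omega⟩
    · exact ⟨0, 0, by omega⟩
  · exact ⟨0, 0, by omega⟩
  · by_cases k : 0 < vc
    · exact ⟨0, 1, by omega⟩
    by_cases k : 0 < vf ∧ (f ≤ sF ∨ f + vF < vf + sF + dF)
    · exact ⟨1, 0, by omega⟩
    · exact ⟨0, 0, by omega⟩
  · by_cases k : 0 < vc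
    · exact ⟨0, 1, by omega⟩
    by_cases k : 0 < vf
    · exact ⟨1, 0, by omega⟩
    · exact ⟨0, 0, by omega⟩
  · exact ⟨0, 0, by omega⟩

def Of.takeL (o : Of) (m : Coin) : Of :=
  ⟨o.dF - m.f, o.pF, o.dA - (m.f + m.c), o.pA, o.dG - m.g, o.pG, o.dW - (m.g + m.e), o.pW,
    o.dX, o.pX - m.x, o.dY, o.pY - m.y⟩

def Of.takeR (o : Of) (m : Coin) : Of :=
  ⟨o.dF, o.pF - m.f, o.dA, o.pA - (m.f + m.c), o.dG, o.pG - m.g, o.dW, o.pW - (m.g + m.e),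
    o.dX - m.x, o.pX, o.dY - m.y, o.pY⟩

/-- the coin `m` is passed; `q` collects the new needs and the new spares -/
def Pass (s : St) (m : Coin) (o q : Of) : Prop :=
  Pass2 s.f s.c m.f m.c o.dF o.pF o.dA o.pA q.dF q.dA q.pF q.pA ∧
  Pass2 s.g s.e m.g m.e o.dG o.pG o.dW o.pW q.dG q.dW q.pG q.pW ∧
  Pass1 s.x m.x o.dX o.pX q.dX q.pX ∧ Pass1 s.y m.y o.dY o.pY q.dY q.pY

/-- offsets after the answer left -/
def Of.afterL (o q : Of) : Of :=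
  ⟨q.dF, o.pF, q.dA, o.pA, q.dG, o.pG, q.dW, o.pW, o.dX, q.pX, o.dY, q.pY⟩

/-- offsets after the answer right -/
def Of.afterR (o q : Of) : Of :=
  ⟨o.dF, q.pF, o.dA, q.pA, o.dG, q.pG, o.dW, q.pW, q.dX, o.pX, q.dY, o.pY⟩

/-- one round of the offset game -/
def RNext (J : St → Of → Prop) (s : St) (o : Of) : Prop :=
  ∀ m : Coin, m.ok s →
    (m.x ≤ o.pX ∧ m.y ≤ o.pY ∧ J (s.goL m) (o.takeL m)) ∨
    (m.f ≤ o.pF ∧ m.f + m.c ≤ o.pA ∧ m.g ≤ o.pG ∧ m.g + m.e ≤ o.pW ∧ J (s.goR m) (o.takeR m)) ∨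
    ∃ q, Pass s m o q ∧ J (s.goL m) (o.afterL q) ∧ J (s.goR m) (o.afterR q)

theorem O1.acc {z s vz vs d p m : ℕ} (h : O1 z s vz vs d p) (h2 : m ≤ z) :
    O1 (z - m) s vz vs (d - m) p := by
  unfold O1 at *; omega

theorem O1.rej {z s vz vs d p m : ℕ} (h : O1 z s vz vs d p) (h2 : m ≤ z) (h3 : m ≤ p) :
    m ≤ s ∧ O1 (z - m) (s - m) vz vs d (p - m) := by
  unfold O1 at *; omega

/-- coinduction for the offset game, up to `RW` -/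
theorem RW.coind (I : St → Of → Prop) (h : ∀ s o, I s o → RNext (fun t q => I t q ∨ RW t q) s o)
    {s : St} {o : Of} (hs : I s o) : RW s o := by
  intro v hv L
  refine LW.coind (fun t => ∃ u q, I t q ∧ Off t u q ∧ LW u) ?_ ⟨v, o, hs, hv, L⟩
  rintro t ⟨u, q, hI, ⟨oF, oA, oG, oW, oX, oY⟩, hu⟩ m hm
  have key : ∀ t' u' q', LW u' → Off t' u' q' → I t' q' ∨ RW t' q' →
      (∃ u q, I t' q ∧ Off t' u q ∧ LW u) ∨ LW t' := by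
    rintro t' u' q' hu' ho (k | k)
    · exact Or.inl ⟨u', q', k, ho, hu'⟩
    · exact Or.inr (k _ ho hu')
  have hm' := hm
  obtain ⟨⟨m1, m2, m3, m4, m5, m6, m7, m8, m9, m10⟩, -, -⟩ := hm'
  have eA : t.f - m.f + (t.c - m.c) = t.f + t.c - (m.f + m.c) := by omega
  have eW : t.g - m.g + (t.e - m.e) = t.g + t.e - (m.g + m.e) := by omega
  rcases h t q hI m hm with ⟨k1, k2, k3⟩ | ⟨k1, k2, k3, k4, k5⟩ | ⟨r, ⟨pA, pW, pX, pY⟩, kL, kR⟩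
  · have x1 := oX.rej m9 k1
    have y1 := oY.rej m10 k2
    refine Or.inl ⟨⟨x1.1, y1.1⟩, key _ u (q.takeL m) hu ⟨oF.acc m5, ?_, oG.acc m7, ?_, x1.2, y1.2⟩ k3⟩
    · exact eA ▸ oA.acc (by omega)
    · exact eW ▸ oW.acc (by omega)
  · have f1 := oF.rej m5 k1
    have a1 := oA.rej (m := m.f + m.c) (by omega) k2
    have g1 := oG.rej m7 k3
    have w1 := oW.rej (m := m.g + m.e) (by omega) k4
    refine Or.inr ⟨⟨f1.1, a1.1, g1.1, w1.1⟩,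
      key _ u (q.takeR m) hu ⟨f1.2, ?_, g1.2, ?_, oX.acc m9, oY.acc m10⟩ k5⟩
    · exact eA ▸ a1.2
    · exact eW ▸ w1.2
  · obtain ⟨nf, nc, a1, a2, a3, a4, a5, a6⟩ := pass2 oF oA m1 m5 m6 pA
    obtain ⟨ng, ne, w1, w2, w3, w4, w5, w6⟩ := pass2 oG oW m2 m7 m8 pW
    obtain ⟨nx, x1, x2, x3, x4⟩ := oX.pass m3 m9 pX
    obtain ⟨ny, y1, y2, y3, y4⟩ := oY.pass m4 m10 pY
    rcases hu.step' ⟨nf, nc, ng, ne, nx, ny⟩ ⟨a1, w1, x1, y1, a2, a3, w2, w3, x2, y2⟩ with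
      ⟨⟨c1, c2⟩, k⟩ | ⟨⟨c1, c2, c3, c4⟩, k⟩
    · exact Or.inl ⟨⟨(x4 c1).1, (y4 c2).1⟩,
        key _ _ (q.afterL r) k ⟨a4, a5, w4, w5, (x4 c1).2, (y4 c2).2⟩ kL⟩
    · have a7 := a6 c1 c2
      have w7 := w6 c3 c4
      exact Or.inr ⟨⟨a7.1, a7.2.1, w7.1, w7.2.1⟩,
        key _ _ (q.afterR r) k ⟨a7.2.2.1, a7.2.2.2, w7.2.2.1, w7.2.2.2, x3, y3⟩ kR⟩

/-- fewer needs and more spares -/
def Of.le (o q : Of) : Prop :=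
  o.dF ≤ q.dF ∧ q.pF ≤ o.pF ∧ o.dA ≤ q.dA ∧ q.pA ≤ o.pA ∧ o.dG ≤ q.dG ∧ q.pG ≤ o.pG ∧
  o.dW ≤ q.dW ∧ q.pW ≤ o.pW ∧ o.dX ≤ q.dX ∧ q.pX ≤ o.pX ∧ o.dY ≤ q.dY ∧ q.pY ≤ o.pY

theorem O1.weak {z s vz vs d p d' p' : ℕ} (h : O1 z s vz vs d p) (h1 : d ≤ d') (h2 : p' ≤ p) :
    O1 z s vz vs d' p' := by
  unfold O1 at *; omega

theorem RW.weak {s : St} {o q : Of} (H : RW s q) (h : o.le q) : RW s o := by
  rintro v ⟨oF, oA, oG, oW, oX, oY⟩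
  obtain ⟨h1, h2, h3, h4, h5, h6, h7, h8, h9, h10, h11, h12⟩ := h
  exact H v ⟨oF.weak h1 h2, oA.weak h3 h4, oG.weak h5 h6, oW.weak h7 h8, oX.weak h9 h10,
    oY.weak h11 h12⟩

def Of.zero : Of := ⟨0, 0, 0, 0, 0, 0, 0, 0, 0, 0, 0, 0⟩

theorem rw_zero (s : St) : RW s Of.zero := by
  refine RW.coind (fun _ o => o = Of.zero) ?_ rfl
  rintro s o rfl m hm
  refine Or.inr (Or.inr ⟨Of.zero, ?_, Or.inl rfl, Or.inl rfl⟩)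
  simp only [Coin.ok, Coin.fits] at hm
  simp only [Pass, Pass1, Pass2, Of.zero]
  omega

/-- strong domination: finished sets impose nothing -/
theorem LW.dom {s v : St} (H : LW v) (h : Off s v Of.zero) : LW s := rw_zero s v h H

def Of.swapL (o : Of) : Of :=
  ⟨o.dG, o.pG, o.dW, o.pW, o.dF, o.pF, o.dA, o.pA, o.dX, o.pX, o.dY, o.pY⟩

def Of.swapR (o : Of) : Of :=
  ⟨o.dF, o.pF, o.dA, o.pA, o.dG, o.pG, o.dW, o.pW, o.dY, o.pY, o.dX, o.pX⟩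

theorem RW.swapL {s : St} {o : Of} (H : RW s o) : RW s.swapL o.swapL := by
  rintro v ⟨oF, oA, oG, oW, oX, oY⟩ L
  exact (H v.swapL ⟨oG, oW, oF, oA, oX, oY⟩ L.swapL).swapL

theorem RW.swapR {s : St} {o : Of} (H : RW s o) : RW s.swapR o.swapR := by
  rintro v ⟨oF, oA, oG, oW, oX, oY⟩ L
  exact (H v.swapR ⟨oF, oA, oG, oW, oY, oX⟩ L.swapR).swapR

end Pool.Agent.MP_242484_co.On
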