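import Pool.Agent.MP_242484_co.on.Res

/-!
Single reservations, iterated.
-/

set_option autoImplicit false

namespace Pool.Agent.MP_242484_co.On

theorem Pass1.keep {z m d p : ℕ} (h : m = 0 ∨ d = 0 ∨ d + p < z) : Pass1 z m d p d p :=
  Or.inl ⟨h, le_rfl, le_rfl⟩

theorem Pass2.zero {f c mf mc : ℕ} (h1 : mf + mc ≤ 1) (h3 : mc ≤ c) :
    Pass2 f c mf mc 0 0 0 0 0 0 0 0 := by
  unfold Pass2; omega

/-- total size of the excluded right sets -/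
def exR (ux uy : Bool) (s : St) : ℕ := cond ux s.x 0 + cond uy s.y 0

/-- invariant for the reservation of left answers on `F` or `A` -/
def IL (ux uy : Bool) (s : St) (o : Of) : Prop :=
  ∃ dF dA pX pY, o = ⟨dF, 0, dA, 0, 0, 0, 0, 0, 0, pX, 0, pY⟩ ∧
    (ux = true ∨ (dF ≤ pX ∧ dA ≤ pX)) ∧ (uy = true ∨ (dF ≤ pY ∧ dA ≤ pY)) ∧
    (dF = 0 ∨ dF + exR ux uy s ≤ s.f) ∧ (dA = 0 ∨ dA + exR ux uy s ≤ s.f + s.c)

theorem rw_IL (ux uy : Bool) {s : St} {o : Of} (h : IL ux uy s o) : RW s o := by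
  refine RW.coind (IL ux uy) ?_ h
  rintro s o ⟨dF, dA, pX, pY, rfl, h1, h2, h3, h4⟩ m
    ⟨⟨m1, m2, m3, m4, m5, m6, m7, m8, m9, m10⟩, -, -⟩
  have pw := Pass2.zero (f := s.g) m2 m8
  have px : Pass1 s.x m.x 0 pX 0 pX := Pass1.keep (Or.inr (Or.inl rfl))
  have py : Pass1 s.y m.y 0 pY 0 pY := Pass1.keep (Or.inr (Or.inl rfl))
  by_cases k : 0 < dF + dA ∧ (m.f = 1 ∨ (m.c = 1 ∧ dF < dA)) ∧ cond ux m.x 0 + cond uy m.y 0 = 0
  · refine Or.inl ⟨?_, ?_, Or.inl ⟨dF - m.f, dA - (m.f + m.c), pX - m.x, pY - m.y, ?_, ?_⟩⟩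
    · cases ux <;> cases uy <;> simp at h1 h2 k ⊢ <;> omega
    · cases ux <;> cases uy <;> simp at h1 h2 k ⊢ <;> omega
    · simp [Of.takeL]
    · cases ux <;> cases uy <;> simp [exR, St.goL] at h1 h2 h3 h4 k ⊢ <;> omega
  by_cases k2 : m.c = 1 ∧ s.c + dF ≤ dA
  · refine Or.inr (Or.inr ⟨⟨dF + 1, 0, dA, 0, 0, 0, 0, 0, 0, pX, 0, pY⟩, ⟨?_, pw, px, py⟩,
      Or.inl ⟨_, _, _, _, rfl, ?_⟩, Or.inl ⟨_, _, _, _, rfl, ?_⟩⟩)
    · cases ux <;> cases uy <;> simp [exR, Pass2] at h1 h2 h3 h4 k ⊢ <;> omega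
    · cases ux <;> cases uy <;> simp [exR, St.goL] at h1 h2 h3 h4 k ⊢ <;> omega
    · cases ux <;> cases uy <;> simp [exR, St.goR] at h1 h2 h3 h4 k ⊢ <;> omega
  · refine Or.inr (Or.inr ⟨⟨dF, 0, dA, 0, 0, 0, 0, 0, 0, pX, 0, pY⟩, ⟨?_, pw, px, py⟩,
      Or.inl ⟨_, _, _, _, rfl, ?_⟩, Or.inl ⟨_, _, _, _, rfl, ?_⟩⟩)
    · cases ux <;> cases uy <;> simp [exR, Pass2] at h1 h2 h3 h4 k ⊢ <;> omega
    · cases ux <;> cases uy <;> simp [exR, St.goL] at h1 h2 h3 h4 k ⊢ <;> omega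
    · cases ux <;> cases uy <;> simp [exR, St.goR] at h1 h2 h3 h4 k ⊢ <;> omega

/-- Left on the first coins of `F` (`kF` times) or `A` (`kA` times) that avoid the excluded sets. -/
theorem resL (ux uy : Bool) (s : St) (kF kA : ℕ) (hF : kF = 0 ∨ kF + exR ux uy s ≤ s.f)
    (hA : kA = 0 ∨ kA + exR ux uy s ≤ s.f + s.c) :
    RW s ⟨kF, 0, kA, 0, 0, 0, 0, 0, 0, cond ux 0 (max kF kA), 0, cond uy 0 (max kF kA)⟩ :=
  rw_IL ux uy ⟨_, _, _, _, rfl, by cases ux <;> simp <;> omega, by cases uy <;> simp <;> omega,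
    hF, hA⟩

/-- charge types: `0` the whole pair is excluded, `1` the inner set is excluded, `2` nothing -/
def exL (t f c : ℕ) : ℕ := if t = 0 then f + c else if t = 1 then f else 0

/-- spares of a nested pair for `k` charges of type `t` -/
def SpL (t c k pF pA : ℕ) : Prop :=
  (t = 0 ∧ pF = 0 ∧ pA = 0) ∨ (t = 1 ∧ pF = 0 ∧ (k ≤ pA ∨ c ≤ pA)) ∨ (2 ≤ t ∧ k ≤ pA ∧ pA ≤ pF)

theorem SpL.take {t f c k pF pA mf mc : ℕ} (h : SpL t c k pF pA) (h1 : mf + mc ≤ 1) (h3 : mc ≤ c)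
    (hk : 0 < k) (he : exL t mf mc = 0) :
    mf ≤ pF ∧ mf + mc ≤ pA ∧ SpL t (c - mc) (k - 1) (pF - mf) (pA - (mf + mc)) ∧
      exL t (f - mf) (c - mc) ≤ exL t f c := by
  unfold SpL exL at *
  split_ifs at * <;> omega

theorem SpL.pass {t f c k pF pA mf mc : ℕ} (h : SpL t c k pF pA) (h1 : mf + mc ≤ 1) (h2 : mf ≤ f)
    (h3 : mc ≤ c) : ∃ rA, Pass2 f c mf mc 0 pF 0 pA 0 0 pF rA ∧ SpL t (c - mc) k pF pA ∧
      SpL t (c - mc) k pF rA ∧ exL t (f - mf) (c - mc) + exL t mf mc = exL t f c := by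
  unfold SpL exL Pass2 at *
  by_cases k1 : mc = 1 ∧ c + pF ≤ pA
  · exact ⟨pA - 1, by split_ifs <;> omega⟩
  · exact ⟨pA, by split_ifs <;> omega⟩

/-- invariant for the reservation of right answers on `X` -/
def IR (ta tw : ℕ) (s : St) (o : Of) : Prop :=
  ∃ pF pA pG pW k, o = ⟨0, pF, 0, pA, 0, pG, 0, pW, k, 0, 0, 0⟩ ∧
    SpL ta s.c k pF pA ∧ SpL tw s.e k pG pW ∧ (k = 0 ∨ k + exL ta s.f s.c + exL tw s.g s.e ≤ s.x)

theorem rw_IR (ta tw : ℕ) {s : St} {o : Of} (h : IR ta tw s o) : RW s o := by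
  refine RW.coind (IR ta tw) ?_ h
  rintro s o ⟨pF, pA, pG, pW, k, rfl, h1, h2, h3⟩ m
    ⟨⟨m1, m2, m3, m4, m5, m6, m7, m8, m9, m10⟩, -, -⟩
  by_cases c : 0 < k ∧ m.x = 1 ∧ exL ta m.f m.c = 0 ∧ exL tw m.g m.e = 0
  · obtain ⟨a1, a2, a3, a4⟩ := h1.take (f := s.f) m1 m6 c.1 c.2.2.1
    obtain ⟨w1, w2, w3, w4⟩ := h2.take (f := s.g) m2 m8 c.1 c.2.2.2
    refine Or.inr (Or.inl ⟨a1, a2, w1, w2, Or.inl ⟨_, _, _, _, k - 1, ?_, a3, w3, ?_⟩⟩)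
    · simp [Of.takeR, c.2.1]
    · simp only [St.goR]; omega
  · obtain ⟨rA, a1, a2, a3, a4⟩ := h1.pass m1 m5 m6
    obtain ⟨rW, w1, w2, w3, w4⟩ := h2.pass m2 m7 m8
    refine Or.inr (Or.inr ⟨⟨0, pF, 0, rA, 0, pG, 0, rW, k, 0, 0, 0⟩,
      ⟨a1, w1, Pass1.keep ?_, Pass1.keep (Or.inr (Or.inl rfl))⟩,
      Or.inl ⟨_, _, _, _, _, rfl, a2, w2, ?_⟩, Or.inl ⟨_, _, _, _, _, rfl, a3, w3, ?_⟩⟩)
    · dsimp only; omega
    · simp only [St.goL]; omega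
    · simp only [St.goR]; omega

/-- Right on the first `k` coins of `X` that avoid the excluded sets. -/
theorem resR (ta tw : ℕ) (s : St) (k : ℕ)
    (h : k = 0 ∨ k + exL ta s.f s.c + exL tw s.g s.e ≤ s.x) :
    RW s ⟨0, if 2 ≤ ta then k else 0, 0, if 1 ≤ ta then k else 0,
      0, if 2 ≤ tw then k else 0, 0, if 1 ≤ tw then k else 0, k, 0, 0, 0⟩ :=
  rw_IR ta tw ⟨_, _, _, _, _, rfl, by unfold SpL; split_ifs <;> omega,
    by unfold SpL; split_ifs <;> omega, h⟩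

/-! ### the forms used for the starts -/

/-- left on the first `k` coins of `F` -/
theorem LW.lf {s v : St} (H : LW v) (k : ℕ) (hk : k ≤ s.f)
    (h : Off s v ⟨k, 0, k, 0, 0, 0, 0, 0, 0, k, 0, k⟩) : LW s := by
  have := resL false false s k k (by simp [exR, hk]) (by simp [exR]; omega)
  simp only [cond_false, max_self] at this
  exact this v h H

/-- left on the first `k` coins of `G` -/
theorem LW.lg {s v : St} (H : LW v) (k : ℕ) (hk : k ≤ s.g)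
    (h : Off s v ⟨0, 0, 0, 0, k, 0, k, 0, 0, k, 0, k⟩) : LW s :=
  (H.swapL.lf (s := s.swapL) k hk ⟨h.2.2.1, h.2.2.2.1, h.1, h.2.1, h.2.2.2.2⟩).swapL

/-- right on the first `k` coins of `X` outside `F` and `G` -/
theorem LW.rx {s v : St} (H : LW v) (k : ℕ) (hk : k + s.f + s.g ≤ s.x)
    (h : Off s v ⟨0, 0, 0, k, 0, 0, 0, k, k, 0, 0, 0⟩) : LW s :=
  resR 1 1 s k (Or.inr hk) v h H

/-- right on the first `k` coins of `Y` outside `F` and `G` -/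
theorem LW.ry {s v : St} (H : LW v) (k : ℕ) (hk : k + s.f + s.g ≤ s.y)
    (h : Off s v ⟨0, 0, 0, k, 0, 0, 0, k, 0, 0, k, 0⟩) : LW s :=
  (H.swapR.rx (s := s.swapR) k hk
    ⟨h.1, h.2.1, h.2.2.1, h.2.2.2.1, h.2.2.2.2.2, h.2.2.2.2.1⟩).swapR

/-- right on the first `k` coins of `X` outside `F` -/
theorem LW.rxg {s v : St} (H : LW v) (k : ℕ) (hk : k + s.f ≤ s.x)
    (h : Off s v ⟨0, 0, 0, k, 0, k, 0, k, k, 0, 0, 0⟩) : LW s :=
  resR 1 2 s k (Or.inr hk) v h H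

/-- right on the first `k` coins of `X` outside `G` -/
theorem LW.rxf {s v : St} (H : LW v) (k : ℕ) (hk : k + s.g ≤ s.x)
    (h : Off s v ⟨0, k, 0, k, 0, 0, 0, k, k, 0, 0, 0⟩) : LW s :=
  resR 2 1 s k (Or.inr (by simpa [exL] using hk)) v h H

end Pool.Agent.MP_242484_co.On
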