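import Pool.Agent.MP_242484_co.cert.Red

/-!
Reservations (snaps) in the linear coin game. A reservation fixes in advance the answers to a few
coins that are still to come. The real state is compared with a virtual state in which these coins
are already played: `g` counts reserved gains, `p` counts charges that are paid in advance.
-/

set_option autoImplicit false
set_option linter.unusedSimpArgs false
set_option linter.unusedTactic false
set_option linter.unnecessarySeqFocus false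
set_option linter.unreachableTactic false

namespace Pool.Agent.MP_242484_co.On

/-- nested pair: `gF` gains on `F`, `gC` gains on `A` (taken from `A \ F` first), `pF` charges
by coins that may mark `F`, `pC` charges by coins that avoid `F` -/
def RL (gF gC pF pC f c sF sA vf vc vF vA : ℕ) : Prop :=
  vF + min pF f ≤ sF ∧ vA + min (pF + pC) (min pF f + c) ≤ sA ∧
    f + vF ≤ vf + sF + gF + (gC - c) ∧ f + c + vA ≤ vf + vc + sA + gF + gC

/-- single set: `g` gains, `p` charges -/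
def RR (g p x sX vx vX : ℕ) : Prop := vX + min p x ≤ sX ∧ x + vX ≤ vx + sX + g

theorem RL.step {gF gC pF pC f c sF sA vf vc vF vA mf mc : ℕ}
    (h : RL gF gC pF pC f c sF sA vf vc vF vA) (h0 : gF + gC = 0 ∨ pF + pC = 0)
    (h1 : mf + mc ≤ 1) (h2 : mf ≤ f) (h3 : mc ≤ c) (h4 : gF + mf ≤ f)
    (h5 : gF + gC + mf + mc ≤ f + c) :
    ∃ nf nc, nf + nc ≤ mf + mc ∧ nf ≤ vf ∧ nc ≤ vc ∧
      RL gF gC pF pC (f - mf) (c - mc) sF sA (vf - nf) (vc - nc) vF vA ∧
      RL gF gC pF pC (f - mf) (c - mc) sF sA vf vc vF vA ∧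
      (nf ≤ vF → nf + nc ≤ vA → mf ≤ sF ∧ mf + mc ≤ sA ∧
        RL gF gC pF pC (f - mf) (c - mc) (sF - mf) (sA - (mf + mc)) (vf - nf) (vc - nc) (vF - nf)
          (vA - (nf + nc))) := by
  by_cases k1 : mf + mc = 0
  · obtain rfl : mf = 0 := by omega
    obtain rfl : mc = 0 := by omega
    exact ⟨0, 0, Nat.le_refl _, Nat.zero_le _, Nat.zero_le _, h, h,
      fun _ _ => ⟨Nat.zero_le _, Nat.zero_le _, h⟩⟩
  have hm : (mf = 1 ∧ mc = 0) ∨ (mf = 0 ∧ mc = 1) := by omega
  clear h1 k1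
  rcases h0 with h0 | h0
  · obtain rfl : gF = 0 := by omega
    obtain rfl : gC = 0 := by omega
    simp only [RL, Nat.add_zero, Nat.zero_sub] at h ⊢
    obtain ⟨q1, q2, q3, q4⟩ := h
    clear h4 h5 h0
    rcases hm with ⟨rfl, rfl⟩ | ⟨rfl, rfl⟩
    · by_cases k2 : 0 < vf
      · exact ⟨1, 0, by (repeat' apply And.intro) <;> omega⟩
      by_cases k3 : 0 < vc
      · exact ⟨0, 1, by (repeat' apply And.intro) <;> omega⟩
      · exact ⟨0, 0, by (repeat' apply And.intro) <;> omega⟩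
    · by_cases k3 : 0 < vc
      · exact ⟨0, 1, by (repeat' apply And.intro) <;> omega⟩
      by_cases k2 : 0 < vf ∧ f + vF < vf + sF
      · exact ⟨1, 0, by (repeat' apply And.intro) <;> omega⟩
      · exact ⟨0, 0, by (repeat' apply And.intro) <;> omega⟩
  · obtain rfl : pF = 0 := by omega
    obtain rfl : pC = 0 := by omega
    simp only [RL, Nat.add_zero, Nat.zero_min] at h ⊢
    obtain ⟨q1, q2, q3, q4⟩ := h
    by_cases k2 : (mf = 1 ∧ 0 < vf) ∨
        (mc = 1 ∧ vc = 0 ∧ 0 < vf ∧ f + vF < vf + sF + gF + (gC - (c - 1)))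
    · exact ⟨1, 0, by (repeat' apply And.intro) <;> omega⟩
    by_cases k3 : 0 < vc
    · exact ⟨0, 1, by (repeat' apply And.intro) <;> omega⟩
    · exact ⟨0, 0, by (repeat' apply And.intro) <;> omega⟩

theorem RR.step {g p x sX vx vX mx : ℕ} (h : RR g p x sX vx vX) (h0 : g = 0 ∨ p = 0)
    (h1 : mx ≤ 1) (h2 : g + mx ≤ x) :
    ∃ nx, nx ≤ mx ∧ nx ≤ vx ∧ RR g p (x - mx) sX (vx - nx) vX ∧ RR g p (x - mx) sX vx vX ∧
      (nx ≤ vX → mx ≤ sX ∧ RR g p (x - mx) (sX - mx) (vx - nx) (vX - nx)) := by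
  unfold RR at *
  by_cases k : mx ≤ vx
  · exact ⟨mx, by omega⟩
  · exact ⟨0, by omega⟩

/-- the counters of a reservation -/
structure Par where
  gF : ℕ
  gC : ℕ
  pF : ℕ
  pC : ℕ
  gG : ℕ
  gE : ℕ
  pG : ℕ
  pE : ℕ
  gX : ℕ
  pX : ℕ
  gY : ℕ
  pY : ℕ

def Rel (P : Par) (s v : St) : Prop :=
  RL P.gF P.gC P.pF P.pC s.f s.c s.sF s.sA v.f v.c v.sF v.sA ∧
    RL P.gG P.gE P.pG P.pE s.g s.e s.sG s.sW v.g v.e v.sG v.sW ∧
    RR P.gX P.pX s.x s.sX v.x v.sX ∧ RR P.gY P.pY s.y s.sY v.y v.sY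

/-- no set has gains and charges at the same time -/
def Par.wf (P : Par) : Prop :=
  (P.gF + P.gC = 0 ∨ P.pF + P.pC = 0) ∧ (P.gG + P.gE = 0 ∨ P.pG + P.pE = 0) ∧
    (P.gX = 0 ∨ P.pX = 0) ∧ (P.gY = 0 ∨ P.pY = 0)

/-- after the coin the reserved elements are still there -/
def Par.rem (P : Par) (s : St) (m : Coin) : Prop :=
  P.gF + m.f ≤ s.f ∧ P.gF + P.gC + m.f + m.c ≤ s.f + s.c ∧
    P.gG + m.g ≤ s.g ∧ P.gG + P.gE + m.g + m.e ≤ s.g + s.e ∧
    P.gX + m.x ≤ s.x ∧ P.gY + m.y ≤ s.y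

theorem Rel.pass {P : Par} (hP : P.wf) {s v : St} (h : Rel P s v) {m : Coin} (hm : m.fits s)
    (hr : P.rem s m) :
    (s.canL m ∧ Rel P (s.goL m) v) ∨ (s.canR m ∧ Rel P (s.goR m) v) ∨
      ∃ n : Coin, n.ok v ∧ (v.canL n → s.canL m ∧ Rel P (s.goL m) (v.goL n)) ∧
        (v.canR n → s.canR m ∧ Rel P (s.goR m) (v.goR n)) := by
  obtain ⟨hA, hW, hX, hY⟩ := h
  obtain ⟨m1, m2, m3, m4, m5, m6, m7, m8, m9, m10⟩ := hm
  obtain ⟨p1, p2, p3, p4⟩ := hP
  obtain ⟨r1, r2, r3, r4, r5, r6⟩ := hr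
  obtain ⟨nf, nc, a1, a2, a3, a4, a5, a6⟩ := hA.step p1 m1 m5 m6 r1 r2
  obtain ⟨ng, ne, w1, w2, w3, w4, w5, w6⟩ := hW.step p2 m2 m7 m8 r3 r4
  obtain ⟨nx, x1, x2, x3, x4, x5⟩ := hX.step p3 m3 r5
  obtain ⟨ny, y1, y2, y3, y4, y5⟩ := hY.step p4 m4 r6
  by_cases k1 : nx + ny = 0
  · obtain rfl : nx = 0 := by omega
    obtain rfl : ny = 0 := by omega
    have x6 := x5 (Nat.zero_le _)
    have y6 := y5 (Nat.zero_le _)
    exact Or.inl ⟨⟨x6.1, y6.1⟩, a5, w5, x6.2, y6.2⟩
  by_cases k2 : nf + nc + ng + ne = 0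
  · obtain rfl : nf = 0 := by omega
    obtain rfl : nc = 0 := by omega
    obtain rfl : ng = 0 := by omega
    obtain rfl : ne = 0 := by omega
    have a7 := a6 (Nat.zero_le _) (Nat.zero_le _)
    have w7 := w6 (Nat.zero_le _) (Nat.zero_le _)
    exact Or.inr (Or.inl ⟨⟨a7.1, a7.2.1, w7.1, w7.2.1⟩, a7.2.2, w7.2.2, x4, y4⟩)
  refine Or.inr (Or.inr ⟨⟨nf, nc, ng, ne, nx, ny⟩, ⟨⟨?_, ?_, ?_, ?_, a2, a3, w2, w3, x2, y2⟩,
    ?_, ?_⟩, ?_, ?_⟩)
  iterate 6 (dsimp only; omega)
  · rintro ⟨k3, k4⟩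
    exact ⟨⟨(x5 k3).1, (y5 k4).1⟩, a4, w4, (x5 k3).2, (y5 k4).2⟩
  · rintro ⟨k3, k4, k5, k6⟩
    have a7 := a6 k3 k4
    have w7 := w6 k5 k6
    exact ⟨⟨a7.1, a7.2.1, w7.1, w7.2.1⟩, a7.2.2, w7.2.2, x3, y3⟩

theorem RL.left {gF gC pF pC f c sF sA vf vc vF vA mf mc gF' gC' : ℕ}
    (h : RL gF gC pF pC f c sF sA vf vc vF vA) (h2 : mf ≤ f) (h3 : mc ≤ c)
    (k1 : gF + (gC - c) ≤ mf + gF' + (gC' - (c - mc))) (k2 : gF + gC ≤ mf + mc + gF' + gC') :
    RL gF' gC' pF pC (f - mf) (c - mc) sF sA vf vc vF vA := by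
  unfold RL at *
  (repeat' apply And.intro) <;> omega

theorem RL.right {gF gC pF pC f c sF sA vf vc vF vA mf mc pF' pC' : ℕ}
    (h : RL gF gC pF pC f c sF sA vf vc vF vA) (h2 : mf ≤ f) (h3 : mc ≤ c)
    (k1 : min pF' (f - mf) + mf ≤ min pF f)
    (k2 : min (pF' + pC') (min pF' (f - mf) + (c - mc)) + (mf + mc) ≤
      min (pF + pC) (min pF f + c)) :
    mf ≤ sF ∧ mf + mc ≤ sA ∧
      RL gF gC pF' pC' (f - mf) (c - mc) (sF - mf) (sA - (mf + mc)) vf vc vF vA := by
  unfold RL at *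
  generalize min (pF' + pC') (min pF' (f - mf) + (c - mc)) = u at *
  generalize min (pF + pC) (min pF f + c) = w at *
  generalize min pF' (f - mf) = u' at *
  generalize min pF f = w' at *
  (repeat' apply And.intro) <;> omega

theorem RR.gain {g p x sX vx vX mx g' : ℕ} (h : RR g p x sX vx vX) (h2 : mx ≤ x)
    (k : g ≤ mx + g') : RR g' p (x - mx) sX vx vX := by
  unfold RR at *
  (repeat' apply And.intro) <;> omega

theorem RR.pay {g p x sX vx vX mx p' : ℕ} (h : RR g p x sX vx vX) (h2 : mx ≤ x)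
    (k : min p' (x - mx) + mx ≤ min p x) : mx ≤ sX ∧ RR g p' (x - mx) (sX - mx) vx vX := by
  unfold RR at *
  (repeat' apply And.intro) <;> omega

/-- the counters `Q` are left of `P` when the coin is taken left -/
def Par.okL (P Q : Par) (s : St) (m : Coin) : Prop :=
  (Q.pF = P.pF ∧ Q.pC = P.pC ∧ Q.pG = P.pG ∧ Q.pE = P.pE ∧ Q.gX = P.gX ∧ Q.gY = P.gY) ∧
    P.gF + (P.gC - s.c) ≤ m.f + Q.gF + (Q.gC - (s.c - m.c)) ∧
    P.gF + P.gC ≤ m.f + m.c + Q.gF + Q.gC ∧
    P.gG + (P.gE - s.e) ≤ m.g + Q.gG + (Q.gE - (s.e - m.e)) ∧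
    P.gG + P.gE ≤ m.g + m.e + Q.gG + Q.gE ∧
    min Q.pX (s.x - m.x) + m.x ≤ min P.pX s.x ∧ min Q.pY (s.y - m.y) + m.y ≤ min P.pY s.y

/-- the counters `Q` are left of `P` when the coin is taken right -/
def Par.okR (P Q : Par) (s : St) (m : Coin) : Prop :=
  (Q.gF = P.gF ∧ Q.gC = P.gC ∧ Q.gG = P.gG ∧ Q.gE = P.gE ∧ Q.pX = P.pX ∧ Q.pY = P.pY) ∧
    min Q.pF (s.f - m.f) + m.f ≤ min P.pF s.f ∧
    min (Q.pF + Q.pC) (min Q.pF (s.f - m.f) + (s.c - m.c)) + (m.f + m.c) ≤
      min (P.pF + P.pC) (min P.pF s.f + s.c) ∧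
    min Q.pG (s.g - m.g) + m.g ≤ min P.pG s.g ∧
    min (Q.pG + Q.pE) (min Q.pG (s.g - m.g) + (s.e - m.e)) + (m.g + m.e) ≤
      min (P.pG + P.pE) (min P.pG s.g + s.e) ∧
    P.gX ≤ m.x + Q.gX ∧ P.gY ≤ m.y + Q.gY

theorem Rel.takeL {P Q : Par} {s v : St} (h : Rel P s v) {m : Coin} (hm : m.fits s)
    (k : P.okL Q s m) : s.canL m ∧ Rel Q (s.goL m) v := by
  obtain ⟨hA, hW, hX, hY⟩ := h
  obtain ⟨-, -, -, -, m5, m6, m7, m8, m9, m10⟩ := hm
  obtain ⟨⟨e1, e2, e3, e4, e5, e6⟩, k1, k2, k3, k4, k5, k6⟩ := k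
  unfold Rel
  rw [e1, e2, e3, e4, e5, e6]
  exact ⟨⟨(hX.pay m9 k5).1, (hY.pay m10 k6).1⟩, hA.left m5 m6 k1 k2, hW.left m7 m8 k3 k4,
    (hX.pay m9 k5).2, (hY.pay m10 k6).2⟩

theorem Rel.takeR {P Q : Par} {s v : St} (h : Rel P s v) {m : Coin} (hm : m.fits s)
    (k : P.okR Q s m) : s.canR m ∧ Rel Q (s.goR m) v := by
  obtain ⟨hA, hW, hX, hY⟩ := h
  obtain ⟨-, -, -, -, m5, m6, m7, m8, m9, m10⟩ := hm
  obtain ⟨⟨e1, e2, e3, e4, e5, e6⟩, k1, k2, k3, k4, k5, k6⟩ := k
  unfold Rel
  rw [e1, e2, e3, e4, e5, e6]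
  have a := hA.right m5 m6 k1 k2
  have w := hW.right m7 m8 k3 k4
  exact ⟨⟨a.1, a.2.1, w.1, w.2.1⟩, a.2.2, w.2.2, hX.gain m9 k5, hY.gain m10 k6⟩

/-- a reservation: counters and a condition on the sizes -/
structure Rs where
  P : Par
  pre : ℕ → ℕ → ℕ → ℕ → ℕ → ℕ → Prop

def Rs.rel (r : Rs) (s v : St) : Prop := r.pre s.f s.c s.g s.e s.x s.y ∧ Rel r.P s v

/-- the size condition after the coin -/
def Rs.nxt (r : Rs) (s : St) (m : Coin) : Prop :=
  r.pre (s.f - m.f) (s.c - m.c) (s.g - m.g) (s.e - m.e) (s.x - m.x) (s.y - m.y)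

/-- Every coin is taken left or right (and a sound reservation is left), or it is passed to the
virtual game. Only sizes and marks matter. -/
theorem Rs.sound (r : Rs) (hP : r.P.wf)
    (h : ∀ (s : St) (m : Coin), r.pre s.f s.c s.g s.e s.x s.y → m.ok s →
      (∃ q : Rs, Sound q.rel ∧ (r.P.okL q.P s m ∨ r.P.okR q.P s m) ∧ q.nxt s m) ∨
        (r.P.rem s m ∧ r.nxt s m)) : Sound r.rel := by
  refine sound_of_sim _ (fun s v => ∃ q : Rs, Sound q.rel ∧ q.rel s v)
    (fun s v ⟨_, k1, k2⟩ => k1 s v k2) ?_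
  rintro s v ⟨h1, h2⟩ m hm
  rcases h s m h1 hm with ⟨q, k1, k | k, k3⟩ | ⟨k1, k2⟩
  · have t := h2.takeL hm.1 k
    exact Or.inl ⟨t.1, Or.inr ⟨q, k1, k3, t.2⟩⟩
  · have t := h2.takeR hm.1 k
    exact Or.inr (Or.inl ⟨t.1, Or.inr ⟨q, k1, k3, t.2⟩⟩)
  · rcases h2.pass hP hm.1 k1 with q | q | ⟨n, q1, q2, q3⟩
    · exact Or.inl ⟨q.1, Or.inl ⟨k2, q.2⟩⟩
    · exact Or.inr (Or.inl ⟨q.1, Or.inl ⟨k2, q.2⟩⟩)
    · exact Or.inr (Or.inr ⟨n, q1, fun t => ⟨(q2 t).1, Or.inl ⟨k2, (q2 t).2⟩⟩,
        fun t => ⟨(q3 t).1, Or.inl ⟨k2, (q3 t).2⟩⟩⟩)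

theorem Sound.imp {R Q : St → St → Prop} (hQ : Sound Q) (h : ∀ s v, R s v → Q s v) : Sound R :=
  fun s v k => hQ s v (h s v k)

theorem Sound.swapL {R : St → St → Prop} (h : Sound R) :
    Sound (fun s v => R s.swapL v.swapL) :=
  fun s v k hv => (h s.swapL v.swapL k hv.swapL).swapL

theorem Sound.swapR {R : St → St → Prop} (h : Sound R) :
    Sound (fun s v => R s.swapR v.swapR) :=
  fun s v k hv => (h s.swapR v.swapR k hv.swapR).swapR

/-- nothing is reserved -/
def rs0 : Rs := ⟨⟨0, 0, 0, 0, 0, 0, 0, 0, 0, 0, 0, 0⟩, fun _ _ _ _ _ _ => True⟩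

theorem sound_rs0 : Sound rs0.rel := by
  refine sound_dom.imp ?_
  intro s v h
  simp only [rs0, Rs.rel, Rel, RL, RR, Dom, DL, DR, Nat.zero_min, Nat.add_zero, Nat.zero_sub,
    true_and] at h ⊢
  exact h

/-! ### single reservations, `j` times -/

/-- what a right reservation avoids in a nested pair: nothing, the inner set, the outer set -/
inductive Av
  | no
  | inn
  | out

/-- size (or marks) of the avoided set -/
def Av.need : Av → ℕ → ℕ → ℕ
  | .no, _, _ => 0
  | .inn, f, _ => f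
  | .out, f, c => f + c

def Av.pF : Av → ℕ → ℕ
  | .no, j => j
  | .inn, _ => 0
  | .out, _ => 0

def Av.pC : Av → ℕ → ℕ
  | .no, _ => 0
  | .inn, j => j
  | .out, _ => 0

/-- left on the first `j` coins that mark `F` (`t = true`) or `A` (`t = false`) and avoid `X`
(if `ex`) and `Y` (if `ey`) -/
def resA (t ex ey : Bool) (j : ℕ) : Rs :=
  ⟨⟨cond t j 0, cond t 0 j, 0, 0, 0, 0, 0, 0, 0, cond ex 0 j, 0, cond ey 0 j⟩,
    fun f c _ _ x y => j + cond ex x 0 + cond ey y 0 ≤ f + cond t 0 c⟩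

/-- the same for `G` or `W` -/
def resW (t ex ey : Bool) (j : ℕ) : Rs :=
  ⟨⟨0, 0, 0, 0, cond t j 0, cond t 0 j, 0, 0, 0, cond ex 0 j, 0, cond ey 0 j⟩,
    fun _ _ g e x y => j + cond ex x 0 + cond ey y 0 ≤ g + cond t 0 e⟩

theorem sound_resA (t ex ey : Bool) (j : ℕ) : Sound (resA t ex ey j).rel := by
  induction j with
  | zero =>
    refine sound_rs0.imp (fun s v h => ⟨trivial, ?_⟩)
    cases t <;> cases ex <;> cases ey <;> exact h.2
  | succ j ih =>
    refine Rs.sound _ ?_ ?_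
    · cases t <;> cases ex <;> cases ey <;> simp [resA, Par.wf]
    intro s m h1 hm
    by_cases k : cond ex m.x 0 + cond ey m.y 0 < m.f + cond t 0 m.c
    · refine Or.inl ⟨_, ih, Or.inl ?_, ?_⟩ <;> cases t <;> cases ex <;> cases ey <;>
      (simp only [resA, cond, Av.need, Av.pF, Av.pC, Par.okL, Par.okR, Par.rem, Rs.nxt,
        Coin.ok, Coin.fits, Nat.zero_min, Nat.add_zero, Nat.zero_add, Nat.zero_sub, Nat.le_refl,
        Nat.zero_le, true_and, and_true] at *
       try ((repeat' apply And.intro) <;> omega))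
    · right
      cases t <;> cases ex <;> cases ey <;>
      (simp only [resA, cond, Av.need, Av.pF, Av.pC, Par.okL, Par.okR, Par.rem, Rs.nxt,
        Coin.ok, Coin.fits, Nat.zero_min, Nat.add_zero, Nat.zero_add, Nat.zero_sub, Nat.le_refl,
        Nat.zero_le, true_and, and_true] at *
       try ((repeat' apply And.intro) <;> omega))

theorem sound_resW (t ex ey : Bool) (j : ℕ) : Sound (resW t ex ey j).rel :=
  (sound_resA t ex ey j).swapL.imp (fun _ _ h => ⟨h.1, h.2.2.1, h.2.1, h.2.2.2⟩)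

/-- right on the first `j` coins that mark `X` and avoid `a` in `F ⊆ A` and `o` in `G ⊆ W` -/
def resX (a o : Av) (j : ℕ) : Rs :=
  ⟨⟨0, 0, a.pF j, a.pC j, 0, 0, o.pF j, o.pC j, j, 0, 0, 0⟩,
    fun f c g e x _ => j + a.need f c + o.need g e ≤ x⟩

/-- the same for `Y` -/
def resY (a o : Av) (j : ℕ) : Rs :=
  ⟨⟨0, 0, a.pF j, a.pC j, 0, 0, o.pF j, o.pC j, 0, 0, j, 0⟩,
    fun f c g e _ y => j + a.need f c + o.need g e ≤ y⟩

theorem sound_resX (a o : Av) (j : ℕ) : Sound (resX a o j).rel := by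
  induction j with
  | zero =>
    refine sound_rs0.imp (fun s v h => ⟨trivial, ?_⟩)
    cases a <;> cases o <;> exact h.2
  | succ j ih =>
    refine Rs.sound _ ?_ ?_
    · simp [resX, Par.wf]
    intro s m h1 hm
    by_cases k : a.need m.f m.c + o.need m.g m.e < m.x
    · refine Or.inl ⟨_, ih, Or.inr ?_, ?_⟩ <;> cases a <;> cases o <;>
      (simp only [resX, cond, Av.need, Av.pF, Av.pC, Par.okL, Par.okR, Par.rem, Rs.nxt,
        Coin.ok, Coin.fits, Nat.zero_min, Nat.add_zero, Nat.zero_add, Nat.zero_sub, Nat.le_refl,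
        Nat.zero_le, true_and, and_true] at *
       try ((repeat' apply And.intro) <;> omega))
    · right
      cases a <;> cases o <;>
      (simp only [resX, cond, Av.need, Av.pF, Av.pC, Par.okL, Par.okR, Par.rem, Rs.nxt,
        Coin.ok, Coin.fits, Nat.zero_min, Nat.add_zero, Nat.zero_add, Nat.zero_sub, Nat.le_refl,
        Nat.zero_le, true_and, and_true] at *
       try ((repeat' apply And.intro) <;> omega))

theorem sound_resY (a o : Av) (j : ℕ) : Sound (resY a o j).rel :=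
  (sound_resX a o j).swapR.imp (fun _ _ h => ⟨h.1, h.2.1, h.2.2.1, h.2.2.2.2, h.2.2.2.1⟩)

/-! ### compound reservations -/

/-- pair: gains on `H` (`F` or `A`) and `K` (`G` or `W`), one charge on `X`, two on `Y`, when
`|H| + |K| > |X|` -/
def pairX (i k : Bool) : Rs :=
  ⟨⟨cond i 1 0, cond i 0 1, 0, 0, cond k 1 0, cond k 0 1, 0, 0, 0, 1, 0, 2⟩,
    fun f c g e x _ => 1 ≤ f + cond i 0 c ∧ 1 ≤ g + cond k 0 e ∧
      x < f + cond i 0 c + (g + cond k 0 e)⟩

theorem sound_pairX (i k : Bool) : Sound (pairX i k).rel := by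
  refine Rs.sound _ ?_ ?_
  · cases i <;> cases k <;> simp [pairX, Par.wf]
  intro s m h1 hm
  by_cases kA : 0 < m.f + cond i 0 m.c <;> by_cases kW : 0 < m.g + cond k 0 m.e
  · refine Or.inl ⟨_, sound_rs0, Or.inl ?_, ?_⟩ <;> cases i <;> cases k <;>
      (simp only [pairX, rs0, cond, Av.need, Av.pF, Av.pC, Par.okL, Par.okR, Par.rem, Rs.nxt,
        Coin.ok, Coin.fits, Nat.zero_min, Nat.add_zero, Nat.zero_add, Nat.zero_sub, Nat.le_refl,
        Nat.zero_le, true_and, and_true] at *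
       try ((repeat' apply And.intro) <;> omega))
  · by_cases kx : m.x = 0
    · refine Or.inl ⟨_, sound_resW k false false 1, Or.inl ?_, ?_⟩ <;> cases i <;> cases k <;>
      (simp only [pairX, resW, cond, Av.need, Av.pF, Av.pC, Par.okL, Par.okR, Par.rem, Rs.nxt,
        Coin.ok, Coin.fits, Nat.zero_min, Nat.add_zero, Nat.zero_add, Nat.zero_sub, Nat.le_refl,
        Nat.zero_le, true_and, and_true] at *
       try ((repeat' apply And.intro) <;> omega))
    by_cases kH : s.f + cond i 0 s.c = 1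
    · refine Or.inl ⟨_, sound_resW k true false 1, Or.inl ?_, ?_⟩ <;> cases i <;> cases k <;>
      (simp only [pairX, resW, cond, Av.need, Av.pF, Av.pC, Par.okL, Par.okR, Par.rem, Rs.nxt,
        Coin.ok, Coin.fits, Nat.zero_min, Nat.add_zero, Nat.zero_add, Nat.zero_sub, Nat.le_refl,
        Nat.zero_le, true_and, and_true] at *
       try ((repeat' apply And.intro) <;> omega))
    · right; cases i <;> cases k <;>
      (simp only [pairX, cond, Av.need, Av.pF, Av.pC, Par.okL, Par.okR, Par.rem, Rs.nxt,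
        Coin.ok, Coin.fits, Nat.zero_min, Nat.add_zero, Nat.zero_add, Nat.zero_sub, Nat.le_refl,
        Nat.zero_le, true_and, and_true] at *
       try ((repeat' apply And.intro) <;> omega))
  · by_cases kx : m.x = 0
    · refine Or.inl ⟨_, sound_resA i false false 1, Or.inl ?_, ?_⟩ <;> cases i <;> cases k <;>
      (simp only [pairX, resA, cond, Av.need, Av.pF, Av.pC, Par.okL, Par.okR, Par.rem, Rs.nxt,
        Coin.ok, Coin.fits, Nat.zero_min, Nat.add_zero, Nat.zero_add, Nat.zero_sub, Nat.le_refl,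
        Nat.zero_le, true_and, and_true] at *
       try ((repeat' apply And.intro) <;> omega))
    by_cases kH : s.g + cond k 0 s.e = 1
    · refine Or.inl ⟨_, sound_resA i true false 1, Or.inl ?_, ?_⟩ <;> cases i <;> cases k <;>
      (simp only [pairX, resA, cond, Av.need, Av.pF, Av.pC, Par.okL, Par.okR, Par.rem, Rs.nxt,
        Coin.ok, Coin.fits, Nat.zero_min, Nat.add_zero, Nat.zero_add, Nat.zero_sub, Nat.le_refl,
        Nat.zero_le, true_and, and_true] at *
       try ((repeat' apply And.intro) <;> omega))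
    · right; cases i <;> cases k <;>
      (simp only [pairX, cond, Av.need, Av.pF, Av.pC, Par.okL, Par.okR, Par.rem, Rs.nxt,
        Coin.ok, Coin.fits, Nat.zero_min, Nat.add_zero, Nat.zero_add, Nat.zero_sub, Nat.le_refl,
        Nat.zero_le, true_and, and_true] at *
       try ((repeat' apply And.intro) <;> omega))
  · right; cases i <;> cases k <;>
      (simp only [pairX, cond, Av.need, Av.pF, Av.pC, Par.okL, Par.okR, Par.rem, Rs.nxt,
        Coin.ok, Coin.fits, Nat.zero_min, Nat.add_zero, Nat.zero_add, Nat.zero_sub, Nat.le_refl,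
        Nat.zero_le, true_and, and_true] at *
       try ((repeat' apply And.intro) <;> omega))

/-- gains on `H` and `K`, one charge on `X` and one on `Y`, when
`max |X| 1 + max |Y| 1 ≤ |H| + |K|` -/
def teeL (i k : Bool) : Rs :=
  ⟨⟨cond i 1 0, cond i 0 1, 0, 0, cond k 1 0, cond k 0 1, 0, 0, 0, 1, 0, 1⟩,
    fun f c g e x y => 1 ≤ f + cond i 0 c ∧ 1 ≤ g + cond k 0 e ∧
      x + y ≤ f + cond i 0 c + (g + cond k 0 e) ∧ x < f + cond i 0 c + (g + cond k 0 e) ∧
      y < f + cond i 0 c + (g + cond k 0 e)⟩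

theorem sound_teeL (i k : Bool) : Sound (teeL i k).rel := by
  refine Rs.sound _ ?_ ?_
  · cases i <;> cases k <;> simp [teeL, Par.wf]
  intro s m h1 hm
  by_cases kA : 0 < m.f + cond i 0 m.c <;> by_cases kW : 0 < m.g + cond k 0 m.e
  · refine Or.inl ⟨_, sound_rs0, Or.inl ?_, ?_⟩ <;> cases i <;> cases k <;>
      (simp only [teeL, rs0, cond, Av.need, Av.pF, Av.pC, Par.okL, Par.okR, Par.rem, Rs.nxt,
        Coin.ok, Coin.fits, Nat.zero_min, Nat.add_zero, Nat.zero_add, Nat.zero_sub, Nat.le_refl,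
        Nat.zero_le, true_and, and_true] at *
       try ((repeat' apply And.intro) <;> omega))
  · by_cases ky : m.y = 0 ∧ s.x ≤ s.g + cond k 0 s.e
    · refine Or.inl ⟨_, sound_resW k true false 1, Or.inl ?_, ?_⟩ <;> cases i <;> cases k <;>
      (simp only [teeL, resW, cond, Av.need, Av.pF, Av.pC, Par.okL, Par.okR, Par.rem, Rs.nxt,
        Coin.ok, Coin.fits, Nat.zero_min, Nat.add_zero, Nat.zero_add, Nat.zero_sub, Nat.le_refl,
        Nat.zero_le, true_and, and_true] at *
       try ((repeat' apply And.intro) <;> omega))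
    by_cases kx : m.x = 0 ∧ s.y ≤ s.g + cond k 0 s.e
    · refine Or.inl ⟨_, sound_resW k false true 1, Or.inl ?_, ?_⟩ <;> cases i <;> cases k <;>
      (simp only [teeL, resW, cond, Av.need, Av.pF, Av.pC, Par.okL, Par.okR, Par.rem, Rs.nxt,
        Coin.ok, Coin.fits, Nat.zero_min, Nat.add_zero, Nat.zero_add, Nat.zero_sub, Nat.le_refl,
        Nat.zero_le, true_and, and_true] at *
       try ((repeat' apply And.intro) <;> omega))
    by_cases kH : m.x + m.y = 2 ∧ s.x + s.y ≤ s.g + cond k 0 s.e + 1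
    · refine Or.inl ⟨_, sound_resW k true true 1, Or.inl ?_, ?_⟩ <;> cases i <;> cases k <;>
      (simp only [teeL, resW, cond, Av.need, Av.pF, Av.pC, Par.okL, Par.okR, Par.rem, Rs.nxt,
        Coin.ok, Coin.fits, Nat.zero_min, Nat.add_zero, Nat.zero_add, Nat.zero_sub, Nat.le_refl,
        Nat.zero_le, true_and, and_true] at *
       try ((repeat' apply And.intro) <;> omega))
    · right; cases i <;> cases k <;>
      (simp only [teeL, cond, Av.need, Av.pF, Av.pC, Par.okL, Par.okR, Par.rem, Rs.nxt,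
        Coin.ok, Coin.fits, Nat.zero_min, Nat.add_zero, Nat.zero_add, Nat.zero_sub, Nat.le_refl,
        Nat.zero_le, true_and, and_true] at *
       try ((repeat' apply And.intro) <;> omega))
  · by_cases ky : m.y = 0 ∧ s.x ≤ s.f + cond i 0 s.c
    · refine Or.inl ⟨_, sound_resA i true false 1, Or.inl ?_, ?_⟩ <;> cases i <;> cases k <;>
      (simp only [teeL, resA, cond, Av.need, Av.pF, Av.pC, Par.okL, Par.okR, Par.rem, Rs.nxt,
        Coin.ok, Coin.fits, Nat.zero_min, Nat.add_zero, Nat.zero_add, Nat.zero_sub, Nat.le_refl,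
        Nat.zero_le, true_and, and_true] at *
       try ((repeat' apply And.intro) <;> omega))
    by_cases kx : m.x = 0 ∧ s.y ≤ s.f + cond i 0 s.c
    · refine Or.inl ⟨_, sound_resA i false true 1, Or.inl ?_, ?_⟩ <;> cases i <;> cases k <;>
      (simp only [teeL, resA, cond, Av.need, Av.pF, Av.pC, Par.okL, Par.okR, Par.rem, Rs.nxt,
        Coin.ok, Coin.fits, Nat.zero_min, Nat.add_zero, Nat.zero_add, Nat.zero_sub, Nat.le_refl,
        Nat.zero_le, true_and, and_true] at *
       try ((repeat' apply And.intro) <;> omega))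
    by_cases kH : m.x + m.y = 2 ∧ s.x + s.y ≤ s.f + cond i 0 s.c + 1
    · refine Or.inl ⟨_, sound_resA i true true 1, Or.inl ?_, ?_⟩ <;> cases i <;> cases k <;>
      (simp only [teeL, resA, cond, Av.need, Av.pF, Av.pC, Par.okL, Par.okR, Par.rem, Rs.nxt,
        Coin.ok, Coin.fits, Nat.zero_min, Nat.add_zero, Nat.zero_add, Nat.zero_sub, Nat.le_refl,
        Nat.zero_le, true_and, and_true] at *
       try ((repeat' apply And.intro) <;> omega))
    · right; cases i <;> cases k <;>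
      (simp only [teeL, cond, Av.need, Av.pF, Av.pC, Par.okL, Par.okR, Par.rem, Rs.nxt,
        Coin.ok, Coin.fits, Nat.zero_min, Nat.add_zero, Nat.zero_add, Nat.zero_sub, Nat.le_refl,
        Nat.zero_le, true_and, and_true] at *
       try ((repeat' apply And.intro) <;> omega))
  · right; cases i <;> cases k <;>
      (simp only [teeL, cond, Av.need, Av.pF, Av.pC, Par.okL, Par.okR, Par.rem, Rs.nxt,
        Coin.ok, Coin.fits, Nat.zero_min, Nat.add_zero, Nat.zero_add, Nat.zero_sub, Nat.le_refl,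
        Nat.zero_le, true_and, and_true] at *
       try ((repeat' apply And.intro) <;> omega))

/-- gains on `X` and `Y`, one charge on each nested pair, when
`max |A| 1 + max |W| 1 ≤ |X| + |Y|` -/
def teeR : Rs :=
  ⟨⟨0, 0, 1, 0, 0, 0, 1, 0, 1, 0, 1, 0⟩,
    fun f c g e x y => 1 ≤ x ∧ 1 ≤ y ∧ f + c + (g + e) ≤ x + y ∧ f + c < x + y ∧ g + e < x + y⟩

theorem sound_teeR : Sound teeR.rel := by
  refine Rs.sound _ ?_ ?_
  · simp [teeR, Par.wf]
  intro s m h1 hm
  by_cases kx : m.x = 1 <;> by_cases ky : m.y = 1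
  · refine Or.inl ⟨_, sound_rs0, Or.inr ?_, ?_⟩ <;>
      (simp only [teeR, rs0, cond, Av.need, Av.pF, Av.pC, Par.okL, Par.okR, Par.rem, Rs.nxt,
        Coin.ok, Coin.fits, Nat.zero_min, Nat.add_zero, Nat.zero_add, Nat.zero_sub, Nat.le_refl,
        Nat.zero_le, true_and, and_true] at *
       try ((repeat' apply And.intro) <;> omega))
  · by_cases kW : m.g + m.e = 0 ∧ s.f + s.c ≤ s.y
    · refine Or.inl ⟨_, sound_resY .out .no 1, Or.inr ?_, ?_⟩ <;>
      (simp only [teeR, resY, cond, Av.need, Av.pF, Av.pC, Par.okL, Par.okR, Par.rem, Rs.nxt,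
        Coin.ok, Coin.fits, Nat.zero_min, Nat.add_zero, Nat.zero_add, Nat.zero_sub, Nat.le_refl,
        Nat.zero_le, true_and, and_true] at *
       try ((repeat' apply And.intro) <;> omega))
    by_cases kA : m.f + m.c = 0 ∧ s.g + s.e ≤ s.y
    · refine Or.inl ⟨_, sound_resY .no .out 1, Or.inr ?_, ?_⟩ <;>
      (simp only [teeR, resY, cond, Av.need, Av.pF, Av.pC, Par.okL, Par.okR, Par.rem, Rs.nxt,
        Coin.ok, Coin.fits, Nat.zero_min, Nat.add_zero, Nat.zero_add, Nat.zero_sub, Nat.le_refl,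
        Nat.zero_le, true_and, and_true] at *
       try ((repeat' apply And.intro) <;> omega))
    by_cases kH : m.f + m.c + m.g + m.e = 2 ∧ s.f + s.c + (s.g + s.e) ≤ s.y + 1
    · refine Or.inl ⟨_, sound_resY .out .out 1, Or.inr ?_, ?_⟩ <;>
      (simp only [teeR, resY, cond, Av.need, Av.pF, Av.pC, Par.okL, Par.okR, Par.rem, Rs.nxt,
        Coin.ok, Coin.fits, Nat.zero_min, Nat.add_zero, Nat.zero_add, Nat.zero_sub, Nat.le_refl,
        Nat.zero_le, true_and, and_true] at *
       try ((repeat' apply And.intro) <;> omega))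
    · right; skip <;>
      (simp only [teeR, cond, Av.need, Av.pF, Av.pC, Par.okL, Par.okR, Par.rem, Rs.nxt,
        Coin.ok, Coin.fits, Nat.zero_min, Nat.add_zero, Nat.zero_add, Nat.zero_sub, Nat.le_refl,
        Nat.zero_le, true_and, and_true] at *
       try ((repeat' apply And.intro) <;> omega))
  · by_cases kW : m.g + m.e = 0 ∧ s.f + s.c ≤ s.x
    · refine Or.inl ⟨_, sound_resX .out .no 1, Or.inr ?_, ?_⟩ <;>
      (simp only [teeR, resX, cond, Av.need, Av.pF, Av.pC, Par.okL, Par.okR, Par.rem, Rs.nxt,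
        Coin.ok, Coin.fits, Nat.zero_min, Nat.add_zero, Nat.zero_add, Nat.zero_sub, Nat.le_refl,
        Nat.zero_le, true_and, and_true] at *
       try ((repeat' apply And.intro) <;> omega))
    by_cases kA : m.f + m.c = 0 ∧ s.g + s.e ≤ s.x
    · refine Or.inl ⟨_, sound_resX .no .out 1, Or.inr ?_, ?_⟩ <;>
      (simp only [teeR, resX, cond, Av.need, Av.pF, Av.pC, Par.okL, Par.okR, Par.rem, Rs.nxt,
        Coin.ok, Coin.fits, Nat.zero_min, Nat.add_zero, Nat.zero_add, Nat.zero_sub, Nat.le_refl,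
        Nat.zero_le, true_and, and_true] at *
       try ((repeat' apply And.intro) <;> omega))
    by_cases kH : m.f + m.c + m.g + m.e = 2 ∧ s.f + s.c + (s.g + s.e) ≤ s.x + 1
    · refine Or.inl ⟨_, sound_resX .out .out 1, Or.inr ?_, ?_⟩ <;>
      (simp only [teeR, resX, cond, Av.need, Av.pF, Av.pC, Par.okL, Par.okR, Par.rem, Rs.nxt,
        Coin.ok, Coin.fits, Nat.zero_min, Nat.add_zero, Nat.zero_add, Nat.zero_sub, Nat.le_refl,
        Nat.zero_le, true_and, and_true] at *
       try ((repeat' apply And.intro) <;> omega))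
    · right; skip <;>
      (simp only [teeR, cond, Av.need, Av.pF, Av.pC, Par.okL, Par.okR, Par.rem, Rs.nxt,
        Coin.ok, Coin.fits, Nat.zero_min, Nat.add_zero, Nat.zero_add, Nat.zero_sub, Nat.le_refl,
        Nat.zero_le, true_and, and_true] at *
       try ((repeat' apply And.intro) <;> omega))
  · exfalso
    unfold Coin.ok Coin.fits at hm
    omega

/-- gains on `X` and `Y` when `|X| + |Y| > |H|`: `H = A` (`i = false`) is charged once, `H = F`
(`i = true`) is charged once and `A \ F` once more, the other pair is charged twice -/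
def quA (i : Bool) : Rs :=
  ⟨⟨0, 0, 1, cond i 1 0, 0, 0, 2, 0, 1, 0, 1, 0⟩,
    fun f c _ _ x y => 1 ≤ x ∧ 1 ≤ y ∧ f + cond i 0 c < x + y⟩

theorem sound_quA (i : Bool) : Sound (quA i).rel := by
  refine Rs.sound _ ?_ ?_
  · simp [quA, Par.wf]
  intro s m h1 hm
  by_cases kx : m.x = 1 <;> by_cases ky : m.y = 1
  · refine Or.inl ⟨_, sound_rs0, Or.inr ?_, ?_⟩ <;> cases i <;>
      (simp only [quA, rs0, cond, Av.need, Av.pF, Av.pC, Par.okL, Par.okR, Par.rem, Rs.nxt,
        Coin.ok, Coin.fits, Nat.zero_min, Nat.add_zero, Nat.zero_add, Nat.zero_sub, Nat.le_refl,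
        Nat.zero_le, true_and, and_true] at *
       try ((repeat' apply And.intro) <;> omega))
  · by_cases kA : m.f + cond i 0 m.c = 0
    · refine Or.inl ⟨_, sound_resY .no .no 1, Or.inr ?_, ?_⟩ <;> cases i <;>
      (simp only [quA, resY, cond, Av.need, Av.pF, Av.pC, Par.okL, Par.okR, Par.rem, Rs.nxt,
        Coin.ok, Coin.fits, Nat.zero_min, Nat.add_zero, Nat.zero_add, Nat.zero_sub, Nat.le_refl,
        Nat.zero_le, true_and, and_true] at *
       try ((repeat' apply And.intro) <;> omega))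
    by_cases kH : s.x = 1
    · refine Or.inl ⟨_, sound_resY (cond i .inn .out) .no 1, Or.inr ?_, ?_⟩ <;> cases i <;>
      (simp only [quA, resY, cond, Av.need, Av.pF, Av.pC, Par.okL, Par.okR, Par.rem, Rs.nxt,
        Coin.ok, Coin.fits, Nat.zero_min, Nat.add_zero, Nat.zero_add, Nat.zero_sub, Nat.le_refl,
        Nat.zero_le, true_and, and_true] at *
       try ((repeat' apply And.intro) <;> omega))
    · right; cases i <;>
      (simp only [quA, cond, Av.need, Av.pF, Av.pC, Par.okL, Par.okR, Par.rem, Rs.nxt,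
        Coin.ok, Coin.fits, Nat.zero_min, Nat.add_zero, Nat.zero_add, Nat.zero_sub, Nat.le_refl,
        Nat.zero_le, true_and, and_true] at *
       try ((repeat' apply And.intro) <;> omega))
  · by_cases kA : m.f + cond i 0 m.c = 0
    · refine Or.inl ⟨_, sound_resX .no .no 1, Or.inr ?_, ?_⟩ <;> cases i <;>
      (simp only [quA, resX, cond, Av.need, Av.pF, Av.pC, Par.okL, Par.okR, Par.rem, Rs.nxt,
        Coin.ok, Coin.fits, Nat.zero_min, Nat.add_zero, Nat.zero_add, Nat.zero_sub, Nat.le_refl,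
        Nat.zero_le, true_and, and_true] at *
       try ((repeat' apply And.intro) <;> omega))
    by_cases kH : s.y = 1
    · refine Or.inl ⟨_, sound_resX (cond i .inn .out) .no 1, Or.inr ?_, ?_⟩ <;> cases i <;>
      (simp only [quA, resX, cond, Av.need, Av.pF, Av.pC, Par.okL, Par.okR, Par.rem, Rs.nxt,
        Coin.ok, Coin.fits, Nat.zero_min, Nat.add_zero, Nat.zero_add, Nat.zero_sub, Nat.le_refl,
        Nat.zero_le, true_and, and_true] at *
       try ((repeat' apply And.intro) <;> omega))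
    · right; cases i <;>
      (simp only [quA, cond, Av.need, Av.pF, Av.pC, Par.okL, Par.okR, Par.rem, Rs.nxt,
        Coin.ok, Coin.fits, Nat.zero_min, Nat.add_zero, Nat.zero_add, Nat.zero_sub, Nat.le_refl,
        Nat.zero_le, true_and, and_true] at *
       try ((repeat' apply And.intro) <;> omega))
  · exfalso
    unfold Coin.ok Coin.fits at hm
    omega

/-! ### the catalogue of `cert/Red.lean` -/

theorem R1.rl {gF gC pF pC γ κ γ' κ' f c sF sA vf vc vF vA : ℕ} (h : R1 γ κ f sF vf vF)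
    (h' : R1 γ' κ' (f + c) sA (vf + vc) vA) (k1 : pF ≤ κ) (k2 : pF + pC ≤ κ')
    (k3 : γ ≤ gF + (gC - c)) (k4 : γ' ≤ gF + gC) : RL gF gC pF pC f c sF sA vf vc vF vA := by
  unfold R1 RL at *
  (repeat' apply And.intro) <;> omega

theorem R1.rr {g p γ κ x sX vx vX : ℕ} (h : R1 γ κ x sX vx vX) (k1 : p ≤ κ) (k2 : γ ≤ g) :
    RR g p x sX vx vX := by
  unfold R1 RR at *
  (repeat' apply And.intro) <;> omega

/-- the snap `p` is an instance of the reservation `r` at the sizes of `s` -/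
def Rs.covers (r : Rs) (p : Snap) (s : St) : Prop :=
  r.pre s.f s.c s.g s.e s.x s.y ∧
    r.P.pF ≤ p.kap.v0 ∧ r.P.pF + r.P.pC ≤ p.kap.v1 ∧
    p.gam.v0 ≤ r.P.gF + (r.P.gC - s.c) ∧ p.gam.v1 ≤ r.P.gF + r.P.gC ∧
    r.P.pG ≤ p.kap.v2 ∧ r.P.pG + r.P.pE ≤ p.kap.v3 ∧
    p.gam.v2 ≤ r.P.gG + (r.P.gE - s.e) ∧ p.gam.v3 ≤ r.P.gG + r.P.gE ∧
    r.P.pX ≤ p.kap.v4 ∧ p.gam.v4 ≤ r.P.gX ∧ r.P.pY ≤ p.kap.v5 ∧ p.gam.v5 ≤ r.P.gY

theorem Rs.valid {r : Rs} (hr : Sound r.rel) {p : Snap}
    (h : ∀ s : St, (∀ k ∈ p.cs, k.holds s) → r.covers p s) : p.Valid := by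
  intro s v hc ⟨r1, r2, r3, r4, r5, r6⟩
  obtain ⟨k0, k1, k2, k3, k4, k5, k6, k7, k8, k9, k10, k11, k12⟩ := h s hc
  exact hr s v ⟨k0, r1.rl r2 k1 k2 k3 k4, r3.rl r4 k5 k6 k7 k8, r5.rr k9 k10, r6.rr k11 k12⟩

theorem snValid : SnValid := by
  intro t
  induction t with
  | dom => exact valid_dom
  | lF r ex ey =>
    refine Rs.valid (sound_resA true ex ey r) (fun s hc => ?_)
    cases ex <;> cases ey <;>
      (simp only [resA, Rs.covers, Sn.snap, List.forall_mem_cons, List.not_mem_nil,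
        Cnd.holds, V.dot, V.z, bn, cond, Bool.and_true, Bool.and_false, Bool.true_and,
        Bool.false_and, Bool.or_true, Bool.or_false, Bool.true_or, Bool.false_or, Bool.not_true,
        Bool.not_false, Av.need, Av.pF, Av.pC, Nat.add_zero, Nat.zero_add, Nat.zero_mul,
        Nat.one_mul, Nat.le_refl, Nat.zero_le, true_and, and_true, false_imp_iff,
        implies_true] at hc ⊢
       try ((repeat' apply And.intro) <;> omega))
  | lA r ex ey =>
    refine Rs.valid (sound_resA false ex ey r) (fun s hc => ?_)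
    cases ex <;> cases ey <;>
      (simp only [resA, Rs.covers, Sn.snap, List.forall_mem_cons, List.not_mem_nil,
        Cnd.holds, V.dot, V.z, bn, cond, Bool.and_true, Bool.and_false, Bool.true_and,
        Bool.false_and, Bool.or_true, Bool.or_false, Bool.true_or, Bool.false_or, Bool.not_true,
        Bool.not_false, Av.need, Av.pF, Av.pC, Nat.add_zero, Nat.zero_add, Nat.zero_mul,
        Nat.one_mul, Nat.le_refl, Nat.zero_le, true_and, and_true, false_imp_iff,
        implies_true] at hc ⊢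
       try ((repeat' apply And.intro) <;> omega))
  | lU r u ex ey =>
    refine Rs.valid (sound_resA false ex ey r) (fun s hc => ?_)
    cases ex <;> cases ey <;>
      (simp only [resA, Rs.covers, Sn.snap, List.forall_mem_cons, List.not_mem_nil,
        Cnd.holds, V.dot, V.z, bn, cond, Bool.and_true, Bool.and_false, Bool.true_and,
        Bool.false_and, Bool.or_true, Bool.or_false, Bool.true_or, Bool.false_or, Bool.not_true,
        Bool.not_false, Av.need, Av.pF, Av.pC, Nat.add_zero, Nat.zero_add, Nat.zero_mul,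
        Nat.one_mul, Nat.le_refl, Nat.zero_le, true_and, and_true, false_imp_iff,
        implies_true] at hc ⊢
       try ((repeat' apply And.intro) <;> omega))
  | rX r nf nc ng ne =>
    refine Rs.valid
      (sound_resX (cond nf (cond nc .out .inn) .no) (cond ng (cond ne .out .inn) .no) r)
      (fun s hc => ?_)
    cases nf <;> cases nc <;> cases ng <;> cases ne <;>
      (simp only [resX, Rs.covers, Sn.snap, List.forall_mem_cons, List.not_mem_nil,
        Cnd.holds, V.dot, V.z, bn, cond, Bool.and_true, Bool.and_false, Bool.true_and,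
        Bool.false_and, Bool.or_true, Bool.or_false, Bool.true_or, Bool.false_or, Bool.not_true,
        Bool.not_false, Av.need, Av.pF, Av.pC, Nat.add_zero, Nat.zero_add, Nat.zero_mul,
        Nat.one_mul, Nat.le_refl, Nat.zero_le, true_and, and_true, false_imp_iff,
        implies_true] at hc ⊢
       try ((repeat' apply And.intro) <;> omega))
  | pr i k u w =>
    refine Rs.valid (sound_pairX i k) (fun s hc => ?_)
    cases i <;> cases k <;> cases u <;> cases w <;>
      (simp only [pairX, Rs.covers, Sn.snap, List.forall_mem_cons, List.not_mem_nil,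
        Cnd.holds, V.dot, V.z, bn, cond, Bool.and_true, Bool.and_false, Bool.true_and,
        Bool.false_and, Bool.or_true, Bool.or_false, Bool.true_or, Bool.false_or, Bool.not_true,
        Bool.not_false, Av.need, Av.pF, Av.pC, Nat.add_zero, Nat.zero_add, Nat.zero_mul,
        Nat.one_mul, Nat.le_refl, Nat.zero_le, true_and, and_true, false_imp_iff,
        implies_true] at hc ⊢
       try ((repeat' apply And.intro) <;> omega))
  | tL i k u w =>
    refine Rs.valid (sound_teeL i k) (fun s hc => ?_)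
    cases i <;> cases k <;> cases u <;> cases w <;>
      (simp only [teeL, Rs.covers, Sn.snap, List.forall_mem_cons, List.not_mem_nil,
        Cnd.holds, V.dot, V.z, bn, cond, Bool.and_true, Bool.and_false, Bool.true_and,
        Bool.false_and, Bool.or_true, Bool.or_false, Bool.true_or, Bool.false_or, Bool.not_true,
        Bool.not_false, Av.need, Av.pF, Av.pC, Nat.add_zero, Nat.zero_add, Nat.zero_mul,
        Nat.one_mul, Nat.le_refl, Nat.zero_le, true_and, and_true, false_imp_iff,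
        implies_true] at hc ⊢
       try ((repeat' apply And.intro) <;> omega))
  | tR =>
    refine Rs.valid sound_teeR (fun s hc => ?_)
    skip <;>
      (simp only [teeR, Rs.covers, Sn.snap, List.forall_mem_cons, List.not_mem_nil,
        Cnd.holds, V.dot, V.z, bn, cond, Bool.and_true, Bool.and_false, Bool.true_and,
        Bool.false_and, Bool.or_true, Bool.or_false, Bool.true_or, Bool.false_or, Bool.not_true,
        Bool.not_false, Av.need, Av.pF, Av.pC, Nat.add_zero, Nat.zero_add, Nat.zero_mul,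
        Nat.one_mul, Nat.le_refl, Nat.zero_le, true_and, and_true, false_imp_iff,
        implies_true] at hc ⊢
       try ((repeat' apply And.intro) <;> omega))
  | qR i =>
    refine Rs.valid (sound_quA i) (fun s hc => ?_)
    cases i <;>
      (simp only [quA, Rs.covers, Sn.snap, List.forall_mem_cons, List.not_mem_nil,
        Cnd.holds, V.dot, V.z, bn, cond, Bool.and_true, Bool.and_false, Bool.true_and,
        Bool.false_and, Bool.or_true, Bool.or_false, Bool.true_or, Bool.false_or, Bool.not_true,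
        Bool.not_false, Av.need, Av.pF, Av.pC, Nat.add_zero, Nat.zero_add, Nat.zero_mul,
        Nat.one_mul, Nat.le_refl, Nat.zero_le, true_and, and_true, false_imp_iff,
        implies_true] at hc ⊢
       try ((repeat' apply And.intro) <;> omega))
  | tLp i k u w =>
    refine Rs.valid (sound_teeL i k) (fun s hc => ?_)
    cases i <;> cases k <;> cases u <;> cases w <;>
      (simp only [teeL, Rs.covers, Sn.snap, List.forall_mem_cons, List.not_mem_nil,
        Cnd.holds, V.dot, V.z, bn, cond, Bool.and_true, Bool.and_false, Bool.true_and,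
        Bool.false_and, Bool.or_true, Bool.or_false, Bool.true_or, Bool.false_or, Bool.not_true,
        Bool.not_false, Av.need, Av.pF, Av.pC, Nat.add_zero, Nat.zero_add, Nat.zero_mul,
        Nat.one_mul, Nat.le_refl, Nat.zero_le, true_and, and_true, false_imp_iff,
        implies_true] at hc ⊢
       try ((repeat' apply And.intro) <;> omega))
  | tRp =>
    refine Rs.valid sound_teeR (fun s hc => ?_)
    skip <;>
      (simp only [teeR, Rs.covers, Sn.snap, List.forall_mem_cons, List.not_mem_nil,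
        Cnd.holds, V.dot, V.z, bn, cond, Bool.and_true, Bool.and_false, Bool.true_and,
        Bool.false_and, Bool.or_true, Bool.or_false, Bool.true_or, Bool.false_or, Bool.not_true,
        Bool.not_false, Av.need, Av.pF, Av.pC, Nat.add_zero, Nat.zero_add, Nat.zero_mul,
        Nat.one_mul, Nat.le_refl, Nat.zero_le, true_and, and_true, false_imp_iff,
        implies_true] at hc ⊢
       try ((repeat' apply And.intro) <;> omega))
  | sl p ih => exact ih.sl
  | sr p ih => exact ih.sr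

end Pool.Agent.MP_242484_co.On
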