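import Pool.Agent.MP_242484_co.on.Chain
import Pool.Agent.MP_242484_co.on.Even
import Pool.Agent.MP_242484_co.on.Odd

/-! The full statement from the tight flat. -/

set_option autoImplicit false

namespace Pool.Agent.MP_242484_co.On

theorem of_gamma (hG : GammaStmt) :
  ∀ r : ℚ, (2 : ℚ) ≤ r →
    (∃ n : ℕ, ∃ G : SimpleGraph (Fin n),
      sInf {s : ℝ | ∀ a b : ℕ, 0 < b → s ≤ (a : ℝ) / (b : ℝ) →
        ∀ L : Fin n → Finset ℕ, (∀ v, (L v).card = a) →
          ∃ C : Fin n → Finset ℕ, (∀ v, C v ⊆ L v ∧ (C v).card = b) ∧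
            ∀ u v, G.Adj u v → Disjoint (C u) (C v)} = (r : ℝ)) ∧
    (∃ n : ℕ, ∃ G : SimpleGraph (Fin n),
      sInf {s : ℝ | ∀ a b : ℕ, 0 < b → s ≤ (a : ℝ) / (b : ℝ) →
        ∀ W : (Fin n → ℕ) → (Fin n → ℕ) → Prop,
          (∀ g h : Fin n → ℕ, (∀ v, h v = 0) → W g h) →
          (∀ g h : Fin n → ℕ, (∀ v, h v ≤ g v) →
            (∀ M : Finset (Fin n), M.Nonempty → (∀ v ∈ M, 0 < h v) →
              ∃ I ⊆ M, G.IsIndepSet (↑I : Set (Fin n)) ∧
                W (fun v => if v ∈ M then g v - 1 else g v)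
                  (fun v => if v ∈ I then h v - 1 else h v)) →
            W g h) →
          W (fun _ => a) (fun _ => b)} = (r : ℝ)) :=
  fun r hr => ⟨exists_graph_choice r hr,
    exists_graph_paint (even_of_gamma hG) (odd_of_gamma hG) r hr⟩

end Pool.Agent.MP_242484_co.On
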